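import Mathlib

/-!
# The Biham-Middleton-Levine traffic model on the square lattice: deterministic part

States: `0` empty, `1` an east car, `2` a north car.
-/

set_option autoImplicit false

namespace Pool.Agent.Helper541_BML

/-- A configuration of the traffic model: `0` empty, `1` an east car, `2` a north car. -/
abbrev Cfg := ℤ × ℤ → Fin 3

/-- The east phase: every east car whose east neighbour is empty moves one step east. -/
def eph (d : Cfg) : Cfg := fun x =>
  if d x = 1 ∧ d (x.1 + 1, x.2) = 0 then 0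
  else if d x = 0 ∧ d (x.1 - 1, x.2) = 1 then 1 else d x

/-- The north phase: every north car whose north neighbour is empty moves one step north. -/
def nph (d : Cfg) : Cfg := fun x =>
  if d x = 2 ∧ d (x.1, x.2 + 1) = 0 then 0
  else if d x = 0 ∧ d (x.1, x.2 - 1) = 2 then 2 else d x

/-- The configuration after `t` cycles (east phase, then north phase) started from `d`. -/
def st (d : Cfg) : ℕ → Cfg
  | 0 => d
  | t + 1 => nph (eph (st d t))

/-- The place, after one cycle, of the car which is at `z` in the configuration `d`. -/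
def mv (d : Cfg) (z : ℤ × ℤ) : ℤ × ℤ :=
  if d z = 1 ∧ d (z.1 + 1, z.2) = 0 then (z.1 + 1, z.2)
  else if d z = 2 ∧ eph d (z.1, z.2 + 1) = 0 then (z.1, z.2 + 1) else z

/-- The place, after `t` cycles, of the car which starts at `x`. -/
def car (d : Cfg) (x : ℤ × ℤ) : ℕ → ℤ × ℤ
  | 0 => x
  | t + 1 => mv (st d t) (car d x t)

/-- the configuration seen from `v` -/
def sh (v : ℤ × ℤ) (d : Cfg) : Cfg := fun x => d (x + v)

theorem fin3 (a : Fin 3) : a = 0 ∨ a = 1 ∨ a = 2 := by
  fin_cases a <;> simp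

/-! ### The two phases -/

theorem eph_one (d : Cfg) (x : ℤ × ℤ) : eph d x = 1 ↔
    (d x = 1 ∧ d (x.1 + 1, x.2) ≠ 0) ∨ (d x = 0 ∧ d (x.1 - 1, x.2) = 1) := by
  unfold eph
  split_ifs with h1 h2
  · simp [h1.1, h1.2]
  · simp [h2.1, h2.2]
  · constructor
    · intro h
      exact Or.inl ⟨h, fun h3 => h1 ⟨h, h3⟩⟩
    · rintro (h | h)
      · exact h.1
      · exact absurd h h2

theorem eph_two (d : Cfg) (x : ℤ × ℤ) : eph d x = 2 ↔ d x = 2 := by
  unfold eph
  split_ifs with h1 h2
  · simp [h1.1]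
  · simp [h2.1]
  · rfl

theorem eph_zero (d : Cfg) (x : ℤ × ℤ) : eph d x = 0 ↔
    (d x = 1 ∧ d (x.1 + 1, x.2) = 0) ∨ (d x = 0 ∧ d (x.1 - 1, x.2) ≠ 1) := by
  unfold eph
  split_ifs with h1 h2
  · simp [h1.1, h1.2]
  · simp [h2.1, h2.2]
  · constructor
    · intro h
      exact Or.inr ⟨h, fun h3 => h2 ⟨h, h3⟩⟩
    · rintro (h | h)
      · exact absurd h h1
      · exact h.1

theorem nph_two (d : Cfg) (x : ℤ × ℤ) : nph d x = 2 ↔
    (d x = 2 ∧ d (x.1, x.2 + 1) ≠ 0) ∨ (d x = 0 ∧ d (x.1, x.2 - 1) = 2) := by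
  unfold nph
  split_ifs with h1 h2
  · simp [h1.1, h1.2]
  · simp [h2.1, h2.2]
  · constructor
    · intro h
      exact Or.inl ⟨h, fun h3 => h1 ⟨h, h3⟩⟩
    · rintro (h | h)
      · exact h.1
      · exact absurd h h2

theorem nph_one (d : Cfg) (x : ℤ × ℤ) : nph d x = 1 ↔ d x = 1 := by
  unfold nph
  split_ifs with h1 h2
  · simp [h1.1]
  · simp [h2.1]
  · rfl

theorem nph_zero (d : Cfg) (x : ℤ × ℤ) : nph d x = 0 ↔
    (d x = 2 ∧ d (x.1, x.2 + 1) = 0) ∨ (d x = 0 ∧ d (x.1, x.2 - 1) ≠ 2) := by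
  unfold nph
  split_ifs with h1 h2
  · simp [h1.1, h1.2]
  · simp [h2.1, h2.2]
  · constructor
    · intro h
      exact Or.inr ⟨h, fun h3 => h2 ⟨h, h3⟩⟩
    · rintro (h | h)
      · exact absurd h h1
      · exact h.1

/-- east cars after one cycle -/
theorem cyc_one (d : Cfg) (x : ℤ × ℤ) : nph (eph d) x = 1 ↔
    (d x = 1 ∧ d (x.1 + 1, x.2) ≠ 0) ∨ (d x = 0 ∧ d (x.1 - 1, x.2) = 1) := by
  rw [nph_one, eph_one]

/-- north cars after one cycle -/
theorem cyc_two (d : Cfg) (x : ℤ × ℤ) : nph (eph d) x = 2 ↔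
    (d x = 2 ∧ eph d (x.1, x.2 + 1) ≠ 0) ∨ (eph d x = 0 ∧ d (x.1, x.2 - 1) = 2) := by
  rw [nph_two, eph_two, eph_two]

/-! ### One car, one cycle -/

theorem mv_one {d : Cfg} {z : ℤ × ℤ} (h : d z = 1) :
    mv d z = if d (z.1 + 1, z.2) = 0 then (z.1 + 1, z.2) else z := by
  unfold mv
  simp [h]

theorem mv_two {d : Cfg} {z : ℤ × ℤ} (h : d z = 2) :
    mv d z = if eph d (z.1, z.2 + 1) = 0 then (z.1, z.2 + 1) else z := by
  unfold mv
  simp [h]

theorem mv_zero {d : Cfg} {z : ℤ × ℤ} (h : d z = 0) : mv d z = z := by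
  unfold mv
  simp [h]

/-- the type of a car does not change -/
theorem cyc_mv {d : Cfg} {z : ℤ × ℤ} (h : d z ≠ 0) : nph (eph d) (mv d z) = d z := by
  rcases fin3 (d z) with h0 | h1 | h2
  · exact absurd h0 h
  · rw [mv_one h1, h1]
    split_ifs with h3
    · rw [cyc_one]
      right
      simp [h3, h1]
    · rw [cyc_one]
      left
      exact ⟨h1, h3⟩
  · rw [mv_two h2, h2]
    split_ifs with h3
    · rw [cyc_two]
      right
      simp [h3, h2]
    · rw [cyc_two]
      left
      exact ⟨h2, h3⟩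

/-- every car after a cycle comes from a car -/
theorem exists_mv {d : Cfg} {w : ℤ × ℤ} (h : nph (eph d) w ≠ 0) :
    ∃ z, d z = nph (eph d) w ∧ mv d z = w := by
  rcases fin3 (nph (eph d) w) with h0 | h1 | h2
  · exact absurd h0 h
  · rw [h1]
    rw [cyc_one] at h1
    rcases h1 with ⟨h3, h4⟩ | ⟨h3, h4⟩
    · refine ⟨w, h3, ?_⟩
      rw [mv_one h3, if_neg h4]
    · refine ⟨(w.1 - 1, w.2), h4, ?_⟩
      rw [mv_one h4]
      simp [h3]
  · rw [h2]
    rw [cyc_two] at h2
    rcases h2 with ⟨h3, h4⟩ | ⟨h3, h4⟩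
    · refine ⟨w, h3, ?_⟩
      rw [mv_two h3, if_neg h4]
    · refine ⟨(w.1, w.2 - 1), h4, ?_⟩
      rw [mv_two h4]
      simp [h3]

/-- two cars never come to the same place -/
theorem mv_inj {d : Cfg} {z w : ℤ × ℤ} (hz : d z ≠ 0) (hw : d w ≠ 0) (h : mv d z = mv d w) :
    z = w := by
  have e : d z = d w := by
    rw [← cyc_mv hz, ← cyc_mv hw, h]
  rcases fin3 (d z) with h0 | h1 | h2
  · exact absurd h0 hz
  · have h1' : d w = 1 := by rw [← e, h1]
    rw [mv_one h1, mv_one h1'] at h
    split_ifs at h with h3 h4 h4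
    · have := congrArg Prod.fst h
      have h5 := congrArg Prod.snd h
      simp only at this h5
      ext
      · omega
      · exact h5
    · rw [h] at h3
      exact absurd h3 hw
    · rw [← h] at h4
      exact absurd h4 hz
    · exact h
  · have h2' : d w = 2 := by rw [← e, h2]
    rw [mv_two h2, mv_two h2'] at h
    split_ifs at h with h3 h4 h4
    · have := congrArg Prod.fst h
      have h5 := congrArg Prod.snd h
      simp only at this h5
      ext
      · exact this
      · omega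
    · rw [h] at h3
      have := (eph_two d w).2 h2'
      rw [h3] at this
      exact absurd this (by decide)
    · rw [← h] at h4
      have := (eph_two d z).2 h2
      rw [h4] at this
      exact absurd this (by decide)
    · exact h

/-! ### Many cycles -/

theorem st_add (d : Cfg) (s t : ℕ) : st d (s + t) = st (st d s) t := by
  induction t with
  | zero => rfl
  | succ t ih => rw [← add_assoc, st, ih, st]

theorem car_add (d : Cfg) (x : ℤ × ℤ) (s t : ℕ) :
    car d x (s + t) = car (st d s) (car d x s) t := by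
  induction t with
  | zero => rfl
  | succ t ih => rw [← add_assoc, car, ih, car, st_add]

theorem st_car {d : Cfg} {x : ℤ × ℤ} (h : d x ≠ 0) (t : ℕ) : st d t (car d x t) = d x := by
  induction t with
  | zero => rfl
  | succ t ih =>
    rw [car, st, cyc_mv (by rw [ih]; exact h), ih]

theorem exists_car {d : Cfg} {t : ℕ} {w : ℤ × ℤ} (h : st d t w ≠ 0) :
    ∃ x, d x = st d t w ∧ car d x t = w := by
  induction t generalizing w with
  | zero => exact ⟨w, rfl, rfl⟩
  | succ t ih =>
    obtain ⟨z, h1, h2⟩ := exists_mv (d := st d t) (w := w) h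
    have h3 : st d t z ≠ 0 := by rw [h1]; exact h
    obtain ⟨x, h4, h5⟩ := ih h3
    refine ⟨x, by rw [h4, h1]; rfl, ?_⟩
    rw [car, h5, h2]

theorem car_inj {d : Cfg} {x y : ℤ × ℤ} (hx : d x ≠ 0) (hy : d y ≠ 0) (t : ℕ)
    (h : car d x t = car d y t) : x = y := by
  induction t with
  | zero => exact h
  | succ t ih =>
    apply ih
    refine mv_inj ?_ ?_ h
    · rw [st_car hx]; exact hx
    · rw [st_car hy]; exact hy

/-! ### Geometry of the motion -/

/-- the direction of the cars of type `k` -/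
def dir (k : Fin 3) : ℤ × ℤ := if k = 1 then (1, 0) else if k = 2 then (0, 1) else 0

theorem mv_cases {d : Cfg} {z : ℤ × ℤ} (h : d z ≠ 0) :
    mv d z = z ∨ (mv d z = z + dir (d z) ∧ d (z + dir (d z)) ≠ d z) := by
  rcases fin3 (d z) with h0 | h1 | h2
  · exact absurd h0 h
  · rw [mv_one h1, h1]
    split_ifs with h3
    · right
      have : z + dir 1 = (z.1 + 1, z.2) := by ext <;> simp [dir]
      rw [this, h3]
      exact ⟨rfl, by decide⟩
    · left; rfl
  · rw [mv_two h2, h2]
    split_ifs with h3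
    · right
      have : z + dir 2 = (z.1, z.2 + 1) := by ext <;> simp [dir]
      rw [this]
      refine ⟨rfl, fun h4 => ?_⟩
      rw [(eph_two _ _).2 h4] at h3
      exact absurd h3 (by decide)
    · left; rfl

/-- The number of moves of the car started at `x` during the first `t` cycles. -/
noncomputable def nm (d : Cfg) (x : ℤ × ℤ) (t : ℕ) : ℤ := (car d x t - x).1 + (car d x t - x).2

theorem car_eq {d : Cfg} {x : ℤ × ℤ} (h : d x ≠ 0) (t : ℕ) :
    ∃ n : ℤ, 0 ≤ n ∧ n ≤ t ∧ car d x t = x + n • dir (d x) := by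
  induction t with
  | zero => exact ⟨0, le_rfl, by simp, by simp [car]⟩
  | succ t ih =>
    obtain ⟨n, h0, h1, h2⟩ := ih
    have h3 : st d t (car d x t) ≠ 0 := by rw [st_car h]; exact h
    have h4 := mv_cases h3
    rw [st_car h] at h4
    rcases h4 with h4 | ⟨h4, -⟩
    · refine ⟨n, h0, by push_cast; omega, ?_⟩
      rw [car, h4, h2]
    · refine ⟨n + 1, by omega, by push_cast; omega, ?_⟩
      rw [car, h4, h2, add_smul, one_smul, add_assoc]

theorem dir_sum {k : Fin 3} (h : k ≠ 0) : (dir k).1 + (dir k).2 = 1 := by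
  rcases fin3 k with h0 | h1 | h2
  · exact absurd h0 h
  · subst h1; simp [dir]
  · subst h2; simp [dir]

theorem car_nm {d : Cfg} {x : ℤ × ℤ} (h : d x ≠ 0) (t : ℕ) :
    car d x t = x + nm d x t • dir (d x) := by
  obtain ⟨n, -, -, h2⟩ := car_eq h t
  have : nm d x t = n := by
    unfold nm
    rw [h2]
    have := dir_sum h
    simp only [add_sub_cancel_left, Prod.smul_fst, Prod.smul_snd, smul_eq_mul]
    rw [← mul_add, this, mul_one]
  rw [this, h2]

theorem nm_nonneg {d : Cfg} {x : ℤ × ℤ} (h : d x ≠ 0) (t : ℕ) : 0 ≤ nm d x t := by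
  obtain ⟨n, h0, -, h2⟩ := car_eq h t
  have := dir_sum h
  have e : nm d x t = n := by
    unfold nm
    rw [h2]
    simp only [add_sub_cancel_left, Prod.smul_fst, Prod.smul_snd, smul_eq_mul]
    rw [← mul_add, this, mul_one]
  rw [e]; exact h0

theorem nm_zero (d : Cfg) (x : ℤ × ℤ) : nm d x 0 = 0 := by
  simp [nm, car]

theorem nm_succ {d : Cfg} {x : ℤ × ℤ} (h : d x ≠ 0) (t : ℕ) :
    nm d x (t + 1) = nm d x t ∨ nm d x (t + 1) = nm d x t + 1 := by
  have h3 : st d t (car d x t) ≠ 0 := by rw [st_car h]; exact h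
  have h4 := mv_cases h3
  rw [st_car h] at h4
  have := dir_sum h
  unfold nm
  rcases h4 with h4 | ⟨h4, -⟩
  · left
    rw [car, h4]
  · right
    rw [car, h4]
    simp only [Prod.fst_sub, Prod.snd_sub, Prod.fst_add, Prod.snd_add]
    linarith

theorem nm_mono {d : Cfg} {x : ℤ × ℤ} (h : d x ≠ 0) : Monotone (nm d x) := by
  refine monotone_nat_of_le_succ fun t => ?_
  rcases nm_succ h t with h1 | h1 <;> omega

theorem nm_le {d : Cfg} {x : ℤ × ℤ} (h : d x ≠ 0) (t : ℕ) : nm d x t ≤ t := by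
  induction t with
  | zero => simp [nm_zero]
  | succ t ih =>
    push_cast
    rcases nm_succ h t with h1 | h1 <;> omega

/-- `nm` is unchanged in a cycle iff the car stays. -/
theorem nm_stay {d : Cfg} {x : ℤ × ℤ} (h : d x ≠ 0) (t : ℕ) :
    nm d x (t + 1) = nm d x t ↔ mv (st d t) (car d x t) = car d x t := by
  have h3 : st d t (car d x t) ≠ 0 := by rw [st_car h]; exact h
  have h4 := mv_cases h3
  rw [st_car h] at h4
  have := dir_sum h
  constructor
  · intro h5
    rcases h4 with h4 | ⟨h4, -⟩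
    · exact h4
    · exfalso
      unfold nm at h5
      rw [car, h4] at h5
      simp only [Prod.fst_sub, Prod.snd_sub, Prod.fst_add, Prod.snd_add] at h5
      linarith
  · intro h5
    unfold nm
    rw [car, h5]

/-- Cars of the same type in the same line keep their order. -/
theorem order {d : Cfg} {x : ℤ × ℤ} (h : d x ≠ 0) {m : ℤ} (hm : 0 < m)
    (h' : d (x + m • dir (d x)) = d x) (t : ℕ) :
    nm d x t < m + nm d (x + m • dir (d x)) t := by
  have h0 : d (x + m • dir (d x)) ≠ 0 := by rw [h']; exact h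
  induction t with
  | zero => simp [nm_zero, hm]
  | succ t ih =>
    by_contra hcon
    push Not at hcon
    have h1 : nm d x (t + 1) = nm d x t + 1 := by
      rcases nm_succ h t with h1 | h1
      · have := nm_mono h0 (Nat.le_succ t)
        simp only [Nat.succ_eq_add_one] at this
        omega
      · exact h1
    have h2 : nm d x t + 1 = m + nm d (x + m • dir (d x)) t := by
      have := nm_mono h0 (Nat.le_succ t)
      simp only [Nat.succ_eq_add_one] at this
      omega
    -- the car ahead is exactly one step ahead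
    have h3 : car d (x + m • dir (d x)) t = car d x t + dir (d x) := by
      rw [car_nm h0, car_nm h, h', add_assoc, ← add_smul, ← h2, add_smul, one_smul, add_assoc]
    have h4 : st d t (car d x t) ≠ 0 := by rw [st_car h]; exact h
    rcases mv_cases h4 with h5 | ⟨h5, h6⟩
    · have := (nm_stay h t).2 h5
      omega
    · rw [st_car h, ← h3, st_car h0, h'] at h6
      exact h6 rfl

/-! ### Translations -/

theorem eph_sh (v : ℤ × ℤ) (d : Cfg) : eph (sh v d) = sh v (eph d) := by
  funext x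
  have e1 : ((x.1 + 1, x.2) : ℤ × ℤ) + v = ((x + v).1 + 1, (x + v).2) := by
    ext <;> simp; ring
  have e2 : ((x.1 - 1, x.2) : ℤ × ℤ) + v = ((x + v).1 - 1, (x + v).2) := by
    ext <;> simp; ring
  simp only [eph, sh, e1, e2]

theorem nph_sh (v : ℤ × ℤ) (d : Cfg) : nph (sh v d) = sh v (nph d) := by
  funext x
  have e1 : ((x.1, x.2 + 1) : ℤ × ℤ) + v = ((x + v).1, (x + v).2 + 1) := by
    ext <;> simp; ring
  have e2 : ((x.1, x.2 - 1) : ℤ × ℤ) + v = ((x + v).1, (x + v).2 - 1) := by
    ext <;> simp; ring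
  simp only [nph, sh, e1, e2]

theorem st_sh (v : ℤ × ℤ) (d : Cfg) (t : ℕ) : st (sh v d) t = sh v (st d t) := by
  induction t with
  | zero => rfl
  | succ t ih => rw [st, ih, eph_sh, nph_sh]; rfl

theorem mv_sh (v : ℤ × ℤ) (d : Cfg) (z : ℤ × ℤ) : mv (sh v d) z = mv d (z + v) - v := by
  have e1 : ((z.1 + 1, z.2) : ℤ × ℤ) + v = ((z + v).1 + 1, (z + v).2) := by
    ext <;> simp; ring
  have e2 : ((z.1, z.2 + 1) : ℤ × ℤ) + v = ((z + v).1, (z + v).2 + 1) := by
    ext <;> simp; ring
  unfold mv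
  rw [eph_sh]
  simp only [sh, e1, e2]
  split_ifs
  · rw [← e1]; simp
  · rw [← e2]; simp
  · simp

theorem car_sh (v : ℤ × ℤ) (d : Cfg) (x : ℤ × ℤ) (t : ℕ) :
    car (sh v d) x t = car d (x + v) t - v := by
  induction t with
  | zero => simp [car]
  | succ t ih => rw [car, ih, st_sh, mv_sh, sub_add_cancel]; rfl

theorem nm_sh (v : ℤ × ℤ) (d : Cfg) (x : ℤ × ℤ) (t : ℕ) :
    nm (sh v d) x t = nm d (x + v) t := by
  unfold nm
  rw [car_sh]
  congr 2 <;> abel

end Pool.Agent.Helper541_BML
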