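import Pool.Agent.Helper541_BML.Jam

/-!
# From independent sites on any probability space to the product law
-/

set_option autoImplicit false

namespace Pool.Agent.Helper541_BML

open MeasureTheory ProbabilityTheory Set Filter Topology
open scoped ENNReal
open Pool.Agent.R203.Bern (iid)

theorem bridge {p : ℝ} {Ω : Type} [MeasurableSpace Ω] {P : Measure Ω}
    [IsProbabilityMeasure P] {c : ℤ × ℤ → Ω → Fin 3} (hc : ∀ x, Measurable (c x))
    (hind : iIndepFun c P)
    (hlaw : ∀ x, P {ω | c x ω = 1} = ENNReal.ofReal (p / 2) ∧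
      P {ω | c x ω = 2} = ENNReal.ofReal (p / 2)) :
    ∃ ν : Measure (Fin 3), IsProbabilityMeasure ν ∧ ν {1} = ENNReal.ofReal (p / 2) ∧
      ν {2} = ENNReal.ofReal (p / 2) ∧ P.map (fun ω x => c x ω) = Law ν := by
  have hpr : ∀ x, IsProbabilityMeasure (P.map (c x)) := fun x =>
    Measure.isProbabilityMeasure_map (hc x).aemeasurable
  have e1 : ∀ x, P.map (c x) {1} = ENNReal.ofReal (p / 2) := by
    intro x
    rw [Measure.map_apply (hc x) (MeasurableSet.singleton _)]
    exact (hlaw x).1
  have e2 : ∀ x, P.map (c x) {2} = ENNReal.ofReal (p / 2) := by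
    intro x
    rw [Measure.map_apply (hc x) (MeasurableSet.singleton _)]
    exact (hlaw x).2
  have e0 : ∀ x, P.map (c x) {0} = 1 - (ENNReal.ofReal (p / 2) + ENNReal.ofReal (p / 2)) := by
    intro x
    have := hpr x
    have h1 : ({0} : Set (Fin 3)) = ({1} ∪ {2})ᶜ := by
      ext a
      rcases fin3 a with h | h | h <;> subst h <;> simp
    rw [h1, prob_compl_eq_one_sub (MeasurableSet.of_discrete),
      measure_union (by simp) (MeasurableSet.singleton _), e1, e2]
  refine ⟨P.map (c 0), hpr 0, e1 0, e2 0, ?_⟩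
  rw [hind.map_fun_eq_infinitePi_map hc]
  have e : ∀ x, P.map (c x) = P.map (c 0) := by
    intro x
    refine Measure.ext_of_singleton fun a => ?_
    rcases fin3 a with h | h | h <;> subst h
    · rw [e0, e0]
    · rw [e1, e1]
    · rw [e2, e2]
  have e' : (fun x => P.map (c x)) = fun _ : ℤ × ℤ => P.map (c 0) := funext e
  rw [e']
  rfl

/-- transfer of almost sure statements -/
theorem transfer {Ω : Type} [MeasurableSpace Ω] {P : Measure Ω}
    {c : ℤ × ℤ → Ω → Fin 3} (hc : ∀ x, Measurable (c x)) {ν : Measure (Fin 3)}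
    [IsProbabilityMeasure ν] (h : P.map (fun ω x => c x ω) = Law ν) {Q : Cfg → Prop}
    (hQ : ∀ᵐ d ∂(Law ν), Q d) : ∀ᵐ ω ∂P, Q (fun x => c x ω) := by
  have hm : Measurable (fun ω x => c x ω) := measurable_pi_iff.2 hc
  rw [← h] at hQ
  exact ae_of_ae_map hm.aemeasurable hQ

theorem half_ne_zero {p : ℝ} (hp : 0 < p) : ENNReal.ofReal (p / 2) ≠ 0 := by
  have : 0 < p / 2 := by linarith
  exact (ENNReal.ofReal_pos.2 this).ne'

theorem half_ne_one {p : ℝ} (hp : p < 1) : ENNReal.ofReal (p / 2) ≠ 1 := by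
  have : ENNReal.ofReal (p / 2) < 1 := by
    rw [ENNReal.ofReal_lt_one]; linarith
  exact this.ne

end Pool.Agent.Helper541_BML
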