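import Pool.Agent.Helper541_BML.Meas

/-!
# Free flow and blocking in the Biham-Middleton-Levine traffic model
-/

set_option autoImplicit false

namespace Pool.Agent.Helper541_BML

open MeasureTheory ProbabilityTheory Set Filter Topology
open scoped ENNReal

/-- The car started at `x` has free-flow limiting velocity. -/
def FF (d : Cfg) (x : ℤ × ℤ) : Prop :=
  Tendsto (fun t : ℕ => (nm d x t : ℝ) / (t : ℝ)) atTop (𝓝 1)

/-- The car started at `x` is blocked only finitely often. -/
def FB (d : Cfg) (x : ℤ × ℤ) : Prop := ∃ T : ℕ, ∀ t, T ≤ t → nm d x (t + 1) = nm d x t + 1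

/-- The car at `z` in the configuration `d` moves in every cycle. -/
def RE (d : Cfg) (z : ℤ × ℤ) (k : Fin 3) : Prop := d z = k ∧ ∀ m : ℕ, car d z m = z + (m : ℤ) • dir k

/-! ### Deterministic facts -/

theorem FB_iff {d : Cfg} {x : ℤ × ℤ} (h : d x ≠ 0) :
    FB d x ↔ ∃ K : ℤ, ∀ t : ℕ, (t : ℤ) - K ≤ nm d x t := by
  constructor
  · rintro ⟨T, hT⟩
    refine ⟨T, fun t => ?_⟩
    by_cases ht : t ≤ T
    · have := nm_nonneg h t
      have : (t : ℤ) ≤ T := by exact_mod_cast ht
      omega
    · push Not at ht
      obtain ⟨s, rfl⟩ := Nat.exists_eq_add_of_le ht.le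
      have : ∀ s : ℕ, nm d x (T + s) = nm d x T + s := by
        intro s
        induction s with
        | zero => simp
        | succ s ih => rw [← add_assoc, hT _ (by omega), ih]; push_cast; ring
      rw [this]
      have := nm_nonneg h T
      push_cast
      omega
  · rintro ⟨K, hK⟩
    -- `g t = t - nm t` is nondecreasing and bounded
    by_contra hcon
    unfold FB at hcon
    push Not at hcon
    have hmono : ∀ t, nm d x (t + 1) ≤ nm d x t + 1 := by
      intro t; rcases nm_succ h t with h1 | h1 <;> omega
    have hmono2 : ∀ s t : ℕ, nm d x (t + s) ≤ nm d x t + s := by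
      intro s t
      induction s with
      | zero => simp
      | succ s ih => rw [← add_assoc]; have := hmono (t + s); push_cast; omega
    have key : ∀ m : ℕ, ∃ t : ℕ, nm d x t + m ≤ t := by
      intro m
      induction m with
      | zero => exact ⟨0, by simp [nm_zero]⟩
      | succ m ih =>
        obtain ⟨t, ht⟩ := ih
        obtain ⟨s, hs, hne⟩ := hcon t
        refine ⟨s + 1, ?_⟩
        have h1 : nm d x (s + 1) = nm d x s := by
          rcases nm_succ h s with h1 | h1
          · exact h1
          · exact absurd h1 hne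
        obtain ⟨r, rfl⟩ := Nat.exists_eq_add_of_le hs
        have := hmono2 r t
        rw [h1]
        push_cast
        omega
    obtain ⟨t, ht⟩ := key (K.toNat + 1)
    have := hK t
    have h2 := Int.self_le_toNat K
    push_cast at ht
    omega

theorem FB_ahead {k : Fin 3} (hk : k ≠ 0) (d : Cfg) (x : ℤ × ℤ) (m : ℤ) (hm : 0 < m)
    (h1 : d x = k) (h2 : d (x + m • dir k) = k) (h : FB d x) : FB d (x + m • dir k) := by
  have h0 : d x ≠ 0 := by rw [h1]; exact hk
  rw [FB_iff h0] at h
  rw [FB_iff (by rw [h2]; exact hk)]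
  obtain ⟨K, hK⟩ := h
  refine ⟨K + m, fun t => ?_⟩
  have h3 := order h0 hm (by rw [h1, h2]) t
  rw [h1] at h3
  have := hK t
  omega

theorem FF_ahead {k : Fin 3} (hk : k ≠ 0) (d : Cfg) (x : ℤ × ℤ) (m : ℤ) (hm : 0 < m)
    (h1 : d x = k) (h2 : d (x + m • dir k) = k) (h : FF d x) : FF d (x + m • dir k) := by
  have h0 : d x ≠ 0 := by rw [h1]; exact hk
  have h0' : d (x + m • dir k) ≠ 0 := by rw [h2]; exact hk
  unfold FF at h ⊢
  have h3 : Tendsto (fun t : ℕ => (nm d x t : ℝ) / (t : ℝ) - (m : ℝ) / (t : ℝ)) atTop (𝓝 1) := by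
    have := h.sub (tendsto_const_div_atTop_nhds_zero_nat (m : ℝ))
    simpa using this
  refine tendsto_of_tendsto_of_tendsto_of_le_of_le' h3 tendsto_const_nhds ?_ ?_
  · filter_upwards [eventually_ge_atTop 1] with t ht
    have ht0 : (0 : ℝ) < t := by exact_mod_cast ht
    rw [← sub_div]
    refine div_le_div_of_nonneg_right ?_ ht0.le
    have h4 := order h0 hm (by rw [h1, h2]) t
    rw [h1] at h4
    have h5 : ((nm d x t : ℤ) : ℝ) < ((m + nm d (x + m • dir k) t : ℤ) : ℝ) := by exact_mod_cast h4
    push_cast at h5
    linarith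
  · filter_upwards [eventually_ge_atTop 1] with t ht
    have ht0 : (0 : ℝ) < t := by exact_mod_cast ht
    rw [div_le_one ht0]
    exact_mod_cast nm_le h0' t

theorem RE_step {d : Cfg} {z : ℤ × ℤ} {k : Fin 3} (hk : k ≠ 0) (h : RE d z k) (m : ℕ) :
    RE (st d m) (z + (m : ℤ) • dir k) k := by
  obtain ⟨h1, h2⟩ := h
  refine ⟨?_, fun n => ?_⟩
  · rw [← h2 m, st_car (by rw [h1]; exact hk), h1]
  · rw [← h2 m, ← car_add, h2, h2]
    push_cast
    rw [add_smul, add_assoc]

/-- A car which moves in each of `R` cycles. -/
theorem car_full {d : Cfg} {k : Fin 3} (hk : k ≠ 0) (h : d 0 = k) {R : ℕ}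
    (hR : car d 0 R = (R : ℤ) • dir k) {n : ℕ} (hn : n ≤ R) : car d 0 n = (n : ℤ) • dir k := by
  have h0 : d 0 ≠ 0 := by rw [h]; exact hk
  have e1 : nm d 0 R = R := by
    have := car_nm h0 R
    rw [hR, zero_add, h] at this
    exact (smul_dir_inj hk this).symm
  have hstep : ∀ s t : ℕ, nm d 0 (t + s) ≤ nm d 0 t + s := by
    intro s t
    induction s with
    | zero => simp
    | succ s ih =>
      rw [← add_assoc]
      have : nm d 0 (t + s + 1) ≤ nm d 0 (t + s) + 1 := by
        rcases nm_succ h0 (t + s) with h1 | h1 <;> omega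
      push_cast; omega
  obtain ⟨s, rfl⟩ := Nat.exists_eq_add_of_le hn
  have h2 := hstep s n
  have h3 := nm_le h0 n
  have h4 : nm d 0 n = n := by
    rw [e1] at h2
    push_cast at h2
    omega
  rw [car_nm h0, h4, zero_add, h]

/-- **Collision.** A car of type `k` at `0` which moves in each of `R` cycles excludes cars of the
other type which always move at the nearby places of its antidiagonal, on its far side. -/
theorem collision {d : Cfg} {k k' : Fin 3} (hk : k ≠ 0) (hk' : k' ≠ 0) (hne : k ≠ k')
    (h : d 0 = k) {R : ℕ} (hR : car d 0 R = (R : ℤ) • dir k) {n : ℕ} (hn : n ≤ R) :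
    ¬ RE d (n • (dir k - dir k')) k' := by
  rintro ⟨h1, h2⟩
  have h3 := car_full hk h hR hn
  have h4 := h2 n
  rw [smul_sub, ← natCast_zsmul, ← natCast_zsmul, sub_add_cancel] at h4
  have h5 := st_car (d := d) (x := 0) (by rw [h]; exact hk) n
  have h6 := st_car (d := d) (x := ((n : ℤ) • dir k - (n : ℤ) • dir k')) (by
    rw [natCast_zsmul, natCast_zsmul, ← smul_sub, h1]; exact hk') n
  rw [h3, h] at h5
  rw [h4, h5] at h6
  apply hne
  rw [h6, natCast_zsmul, natCast_zsmul, ← smul_sub, h1]

/-! ### Windows of time -/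

variable (ν : Measure (Fin 3)) [IsProbabilityMeasure ν]

theorem measurable_nmR (x : ℤ × ℤ) (t : ℕ) : Measurable (fun d : Cfg => (nm d x t : ℝ)) :=
  (measurable_of_countable (fun n : ℤ => (n : ℝ))).comp (measurable_nm x t)

theorem ms_FF : MeasurableSet {d : Cfg | FF d 0} := by
  unfold FF
  exact measurableSet_tendsto (𝓝 1) fun t => (measurable_nmR 0 t).div_const _

theorem ms_FB : MeasurableSet {d : Cfg | FB d 0} := by
  have : {d : Cfg | FB d 0} = ⋃ T : ℕ, ⋂ t : ℕ, ⋂ _ : T ≤ t,
      {d : Cfg | nm d 0 (t + 1) = nm d 0 t + 1} := by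
    ext d; simp [FB]
  rw [this]
  refine MeasurableSet.iUnion fun T => MeasurableSet.iInter fun t => MeasurableSet.iInter fun _ => ?_
  exact measurableSet_eq_fun (measurable_nm 0 _) ((measurable_nm 0 t).add_const 1)

theorem ms_car (z w : ℤ × ℤ) (t : ℕ) : MeasurableSet {d : Cfg | car d z t = w} :=
  measurable_car z t (MeasurableSet.singleton w)

theorem ms_RE (z : ℤ × ℤ) (k : Fin 3) : MeasurableSet {d : Cfg | RE d z k} := by
  have : {d : Cfg | RE d z k} = {d | d z = k} ∩ ⋂ m : ℕ, {d | car d z m = z + (m : ℤ) • dir k} := by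
    ext d; simp [RE]
  rw [this]
  exact (ms_coord z k).inter (MeasurableSet.iInter fun m => ms_car z _ m)

/-- If almost surely all cars of type `k` have free-flow velocity, then in windows of `R` cycles a
typical car is not always blocked at least once. -/
theorem ff_window {k : Fin 3} (hk : k ≠ 0) (hff : ∀ᵐ d ∂(Law ν), d 0 = k → FF d 0)
    {R T : ℕ} (hR : 1 ≤ R) {q : ℝ}
    (hq : ∀ s, T ≤ s → (Law ν).real {d | st d s 0 = k ∧ car (st d s) 0 R = (R : ℤ) • dir k} ≤ q) :
    ν.real {k} ≤ q := by
  set μ := Law ν with hμ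
  set A : Set Cfg := {d | d 0 = k} with hA
  have hAm : MeasurableSet A := ms_coord 0 k
  have hAν : μ.real A = ν.real {k} := by
    rw [measureReal_def, measureReal_def, hμ, law_coord]
  -- means
  set M : ℕ → ℝ := fun n => ∫ d in A, (nm d 0 n : ℝ) ∂μ with hM
  have hlim : Tendsto (fun n : ℕ => M n / (n : ℝ)) atTop (𝓝 (ν.real {k})) := by
    have h1 : Tendsto (fun n : ℕ => ∫ d in A, ((nm d 0 n : ℝ) / (n : ℝ)) ∂μ) atTop
        (𝓝 (∫ d in A, (1 : ℝ) ∂μ)) := by
      refine tendsto_integral_of_dominated_convergence (fun _ => (1 : ℝ)) ?_ ?_ ?_ ?_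
      · intro n
        exact ((measurable_nmR 0 n).div_const _).aestronglyMeasurable
      · exact integrable_const _
      · intro n
        rw [ae_restrict_iff' hAm]
        refine Eventually.of_forall fun d hd => ?_
        have h0 : d 0 ≠ 0 := by
          have : d 0 = k := hd
          rw [this]; exact hk
        rw [Real.norm_eq_abs, abs_of_nonneg (by
          have := nm_nonneg h0 n
          positivity)]
        by_cases hn : n = 0
        · subst hn; simp
        · have hn0 : (0 : ℝ) < n := by positivity
          rw [div_le_one hn0]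
          exact_mod_cast nm_le h0 n
      · rw [ae_restrict_iff' hAm]
        filter_upwards [hff] with d hd hdA
        exact hd hdA
    simp only [integral_const, measureReal_restrict_apply MeasurableSet.univ, univ_inter,
      smul_eq_mul, mul_one] at h1
    rw [hAν] at h1
    refine h1.congr fun n => ?_
    rw [hM]
    simp only
    rw [integral_div]
  -- windows
  set W : ℕ → Set Cfg := fun i => {d | d 0 = k ∧ nm d 0 (T + (i + 1) * R) = nm d 0 (T + i * R) + R}
    with hW
  have hWm : ∀ i, MeasurableSet (W i) := fun i =>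
    (ms_coord 0 k).inter (measurableSet_eq_fun (measurable_nm 0 _) ((measurable_nm 0 _).add_const _))
  have hWq : ∀ i, μ.real (W i) ≤ q := by
    intro i
    have h1 := transport ν hk (T + i * R) (G := {d' | car d' 0 R = (R : ℤ) • dir k}) (ms_car 0 _ R)
    have h2 : W i = {d | d 0 = k ∧ sh (car d 0 (T + i * R)) (st d (T + i * R)) ∈
        {d' : Cfg | car d' 0 R = (R : ℤ) • dir k}} := by
      ext d
      simp only [hW, mem_ofPred_eq]
      refine and_congr_right fun h3 => ?_
      have h0 : d 0 ≠ 0 := by rw [h3]; exact hk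
      rw [car_sh, zero_add, ← car_add]
      have e : T + (i + 1) * R = T + i * R + R := by ring
      rw [e, car_nm h0, car_nm h0, h3, zero_add, zero_add, ← sub_smul]
      constructor
      · intro h4
        rw [h4]
        congr 1
        ring
      · intro h4
        have := smul_dir_inj hk h4
        omega
    rw [h2, measureReal_def, h1, ← measureReal_def]
    exact hq (T + i * R) (by omega)
  have hbound : ∀ J : ℕ, M (T + J * R) ≤ (T + J * ((R : ℝ) - 1)) * ν.real {k} + J * q := by
    intro J
    have hpt : ∀ d ∈ A, (nm d 0 (T + J * R) : ℝ) ≤ (T + J * ((R : ℝ) - 1)) +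
        ∑ i ∈ Finset.range J, (W i).indicator (fun _ => (1 : ℝ)) d := by
      intro d hd
      have h3 : d 0 = k := hd
      have h0 : d 0 ≠ 0 := by rw [h3]; exact hk
      induction J with
      | zero =>
        simp only [zero_mul, add_zero, CharP.cast_eq_zero, Finset.range_zero, Finset.sum_empty]
        exact_mod_cast nm_le h0 T
      | succ J ih =>
        rw [Finset.sum_range_succ]
        have hstep : ∀ s t : ℕ, nm d 0 (t + s) ≤ nm d 0 t + s := by
          intro s t
          induction s with
          | zero => simp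
          | succ s ih =>
            rw [← add_assoc]
            have : nm d 0 (t + s + 1) ≤ nm d 0 (t + s) + 1 := by
              rcases nm_succ h0 (t + s) with h1 | h1 <;> omega
            push_cast; omega
        have e : T + (J + 1) * R = T + J * R + R := by ring
        have h4 := hstep R (T + J * R)
        rw [← e] at h4
        by_cases hw : d ∈ W J
        · rw [indicator_of_mem hw]
          have h5 : ((nm d 0 (T + (J + 1) * R) : ℤ) : ℝ) ≤ ((nm d 0 (T + J * R) + R : ℤ) : ℝ) := by
            exact_mod_cast h4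
          push_cast at h5 ⊢
          linarith
        · rw [indicator_of_notMem hw]
          have h6 : nm d 0 (T + (J + 1) * R) ≤ nm d 0 (T + J * R) + R - 1 := by
            rcases lt_or_eq_of_le h4 with h7 | h7
            · omega
            · exact absurd ⟨h3, h7⟩ hw
          have h5 : ((nm d 0 (T + (J + 1) * R) : ℤ) : ℝ) ≤
              ((nm d 0 (T + J * R) + R - 1 : ℤ) : ℝ) := by
            exact_mod_cast h6
          push_cast at h5 ⊢
          linarith
    have hintW : ∀ i, IntegrableOn ((W i).indicator (fun _ => (1 : ℝ))) A μ := fun i =>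
      (((integrable_const (1 : ℝ)).indicator (hWm i)).integrableOn)
    have h8 : M (T + J * R) ≤ ∫ d in A, ((T + J * ((R : ℝ) - 1)) +
        ∑ i ∈ Finset.range J, (W i).indicator (fun _ => (1 : ℝ)) d) ∂μ := by
      refine setIntegral_mono_on ?_ ?_ hAm hpt
      · refine Integrable.of_bound (C := ((T + J * R : ℕ) : ℝ))
          (measurable_nmR 0 _).aestronglyMeasurable ?_
        rw [ae_restrict_iff' hAm]
        refine Eventually.of_forall fun d hd => ?_
        have h3 : d 0 = k := hd
        have h0 : d 0 ≠ 0 := by rw [h3]; exact hk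
        rw [Real.norm_eq_abs, abs_of_nonneg (by exact_mod_cast nm_nonneg h0 _)]
        exact_mod_cast nm_le h0 _
      · exact (integrable_const _).add (integrable_finsetSum _ fun i _ => hintW i)
    refine h8.trans ?_
    rw [integral_add (integrable_const _) (integrable_finsetSum _ fun i _ => hintW i),
      integral_finsetSum _ (fun i _ => hintW i)]
    simp only [integral_const, measureReal_restrict_apply MeasurableSet.univ, univ_inter,
      smul_eq_mul]
    rw [hAν]
    have h9 : ∑ i ∈ Finset.range J, ∫ d in A, (W i).indicator (fun _ => (1 : ℝ)) d ∂μ ≤ J * q := by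
      calc ∑ i ∈ Finset.range J, ∫ d in A, (W i).indicator (fun _ => (1 : ℝ)) d ∂μ
          ≤ ∑ i ∈ Finset.range J, q := by
            refine Finset.sum_le_sum fun i _ => ?_
            rw [integral_indicator (hWm i)]
            simp only [integral_const, smul_eq_mul, mul_one]
            refine le_trans ?_ (hWq i)
            rw [measureReal_restrict_apply MeasurableSet.univ, univ_inter]
            rw [measureReal_restrict_apply (hWm i)]
            exact measureReal_mono inter_subset_left
        _ = J * q := by simp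
    linarith
  -- conclusion
  have hR0 : (0 : ℝ) < R := by exact_mod_cast hR
  have hsub : Tendsto (fun J : ℕ => T + J * R) atTop atTop := by
    refine tendsto_atTop_mono (fun J => ?_) tendsto_id
    have : J * 1 ≤ J * R := Nat.mul_le_mul_left J hR
    simp only [id]
    omega
  have hlim2 := hlim.comp hsub
  have hup : Tendsto (fun J : ℕ => ((T + J * ((R : ℝ) - 1)) * ν.real {k} + J * q) /
      ((T + J * R : ℕ) : ℝ)) atTop (𝓝 ((((R : ℝ) - 1) * ν.real {k} + q) / R)) := by
    have h1 : Tendsto (fun J : ℕ => (T : ℝ) / J) atTop (𝓝 0) :=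
      tendsto_const_div_atTop_nhds_zero_nat _
    have h2 : Tendsto (fun J : ℕ => (((T : ℝ) / J + ((R : ℝ) - 1)) * ν.real {k} + q) /
        ((T : ℝ) / J + R)) atTop (𝓝 (((0 + ((R : ℝ) - 1)) * ν.real {k} + q) / (0 + R))) := by
      refine Tendsto.div (((h1.add_const _).mul_const _).add_const _) (h1.add_const _) ?_
      rw [zero_add]; exact hR0.ne'
    rw [zero_add, zero_add] at h2
    refine h2.congr' ?_
    filter_upwards [eventually_ge_atTop 1] with J hJ
    have hJ0 : (0 : ℝ) < J := by exact_mod_cast hJ
    push_cast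
    have hden : (0 : ℝ) < T + J * R := by positivity
    have hden2 : (0 : ℝ) < (T : ℝ) / J + R := by positivity
    rw [div_eq_div_iff hden2.ne' hden.ne']
    field_simp
  have hle := le_of_tendsto_of_tendsto' hlim2 hup (fun J => by
    simp only [Function.comp]
    exact div_le_div_of_nonneg_right (hbound J) (by positivity))
  rw [le_div_iff₀ hR0] at hle
  linarith

end Pool.Agent.Helper541_BML
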