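import Pool.Agent.Helper541_BML.Tri

/-!
# Jamming in the Biham-Middleton-Levine traffic model: all or none
-/

set_option autoImplicit false

namespace Pool.Agent.Helper541_BML

open MeasureTheory ProbabilityTheory Set Filter Topology
open scoped ENNReal

/-- The car started at `x` is eventually jammed. -/
def JM (d : Cfg) (x : ℤ × ℤ) : Prop := ∃ T : ℕ, ∀ t, T ≤ t → nm d x t = nm d x T

/-- The place `z` is occupied from some time on by a car of type `k` which never moves again. -/
def SJ (d : Cfg) (z : ℤ × ℤ) (k : Fin 3) : Prop :=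
  ∃ T : ℕ, ∀ t, T ≤ t → st d t z = k ∧ mv (st d t) z = z

theorem JM_iff {d : Cfg} {x : ℤ × ℤ} (h : d x ≠ 0) : JM d x ↔ ∃ B : ℤ, ∀ t, nm d x t ≤ B := by
  constructor
  · rintro ⟨T, hT⟩
    refine ⟨nm d x T, fun t => ?_⟩
    rcases le_total T t with h1 | h1
    · exact (hT t h1).le
    · exact nm_mono h h1
  · rintro ⟨B, hB⟩
    by_contra hcon
    unfold JM at hcon
    push Not at hcon
    have key : ∀ m : ℕ, ∃ t : ℕ, (m : ℤ) ≤ nm d x t := by
      intro m
      induction m with
      | zero => exact ⟨0, by simp [nm_zero]⟩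
      | succ m ih =>
        obtain ⟨t, ht⟩ := ih
        obtain ⟨s, hs, hne⟩ := hcon t
        refine ⟨s, ?_⟩
        have := nm_mono h hs
        push_cast
        omega
    obtain ⟨t, ht⟩ := key (B.toNat + 1)
    have := hB t
    have h2 := Int.self_le_toNat B
    push_cast at ht
    omega

theorem not_JM_ahead {k : Fin 3} (hk : k ≠ 0) (d : Cfg) (x : ℤ × ℤ) (m : ℤ) (hm : 0 < m)
    (h1 : d x = k) (h2 : d (x + m • dir k) = k) (h : ¬ JM d x) : ¬ JM d (x + m • dir k) := by
  have h0 : d x ≠ 0 := by rw [h1]; exact hk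
  have h0' : d (x + m • dir k) ≠ 0 := by rw [h2]; exact hk
  intro hJ
  apply h
  rw [JM_iff h0'] at hJ
  rw [JM_iff h0]
  obtain ⟨B, hB⟩ := hJ
  refine ⟨m + B, fun t => ?_⟩
  have h3 := order h0 hm (by rw [h1, h2]) t
  rw [h1] at h3
  have := hB t
  omega

theorem JM_sh (v : ℤ × ℤ) (d : Cfg) (x : ℤ × ℤ) : JM (sh v d) x ↔ JM d (x + v) := by
  unfold JM
  simp only [nm_sh]

theorem ms_JM : MeasurableSet {d : Cfg | JM d 0} := by
  have : {d : Cfg | JM d 0} = ⋃ T : ℕ, ⋂ t : ℕ, ⋂ _ : T ≤ t,
      {d : Cfg | nm d 0 t = nm d 0 T} := by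
    ext d; simp [JM]
  rw [this]
  refine MeasurableSet.iUnion fun T => MeasurableSet.iInter fun t => MeasurableSet.iInter fun _ => ?_
  exact measurableSet_eq_fun (measurable_nm 0 _) (measurable_nm 0 _)

theorem SJ_of_JM {d : Cfg} {x : ℤ × ℤ} (h : d x ≠ 0) (hJ : JM d x) : ∃ z, SJ d z (d x) := by
  obtain ⟨T, hT⟩ := hJ
  refine ⟨car d x T, T, fun t ht => ?_⟩
  have e : ∀ s, T ≤ s → car d x s = car d x T := by
    intro s hs
    rw [car_nm h, car_nm h, hT s hs]
  refine ⟨?_, ?_⟩
  · rw [← e t ht, st_car h]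
  · have h1 := e (t + 1) (by omega)
    rw [car, e t ht] at h1
    exact h1

theorem JM_of_SJ {d : Cfg} {z : ℤ × ℤ} {k : Fin 3} (hk : k ≠ 0) (h : SJ d z k) :
    ∃ x, d x = k ∧ JM d x := by
  obtain ⟨T, hT⟩ := h
  obtain ⟨x, h1, h2⟩ := exists_car (d := d) (t := T) (w := z) (by rw [(hT T le_rfl).1]; exact hk)
  rw [(hT T le_rfl).1] at h1
  refine ⟨x, h1, T, ?_⟩
  have e : ∀ s : ℕ, car d x (T + s) = z := by
    intro s
    induction s with
    | zero => exact h2
    | succ s ih => rw [← add_assoc, car, ih, (hT (T + s) (by omega)).2]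
  intro t ht
  obtain ⟨s, rfl⟩ := Nat.exists_eq_add_of_le ht
  unfold nm
  rw [e s, h2]

/-- **Blocking chains.** The car which jams at `z` is held by a car which jams at the next place. -/
theorem SJ_next {d : Cfg} {z : ℤ × ℤ} {k : Fin 3} (hk : k ≠ 0) (h : SJ d z k) :
    SJ d (z + dir k) 1 ∨ SJ d (z + dir k) 2 := by
  obtain ⟨T, hT⟩ := h
  rcases fin3 k with h0 | h1 | h2
  · exact absurd h0 hk
  · subst h1
    set w : ℤ × ℤ := (z.1 + 1, z.2) with hw
    have hwz : z + dir 1 = w := by ext <;> simp [dir, hw]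
    rw [hwz]
    have hne : ∀ t, T ≤ t → st d t w ≠ 0 := by
      intro t ht h3
      obtain ⟨h4, h5⟩ := hT t ht
      rw [mv_one h4, if_pos h3] at h5
      have := congrArg Prod.fst h5
      simp at this
    by_cases hc : ∃ t, T ≤ t ∧ st d t w = 2
    · right
      obtain ⟨t, ht, h3⟩ := hc
      have stay : ∀ s, T ≤ s → st d s w = 2 → mv (st d s) w = w := by
        intro s hs h4
        rw [mv_two h4]
        split_ifs with h5
        · exfalso
          apply hne (s + 1) (by omega)
          rw [st, nph_zero]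
          left
          exact ⟨(eph_two _ _).2 h4, h5⟩
        · rfl
      have all : ∀ s : ℕ, st d (t + s) w = 2 := by
        intro s
        induction s with
        | zero => exact h3
        | succ s ih =>
          have h6 := stay (t + s) (by omega) ih
          have h7 := cyc_mv (d := st d (t + s)) (z := w) (by rw [ih]; decide)
          rw [h6, ih] at h7
          exact h7
      refine ⟨t, fun s hs => ?_⟩
      obtain ⟨r, rfl⟩ := Nat.exists_eq_add_of_le hs
      exact ⟨all r, stay _ (by omega) (all r)⟩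
    · left
      push Not at hc
      have h1 : ∀ t, T ≤ t → st d t w = 1 := by
        intro t ht
        rcases fin3 (st d t w) with h3 | h3 | h3
        · exact absurd h3 (hne t ht)
        · exact h3
        · exact absurd h3 (hc t ht)
      refine ⟨T, fun t ht => ⟨h1 t ht, ?_⟩⟩
      rw [mv_one (h1 t ht)]
      split_ifs with h5
      · exfalso
        have h6 := h1 (t + 1) (by omega)
        rw [st, cyc_one] at h6
        rcases h6 with h6 | h6
        · exact h6.2 h5
        · rw [h1 t ht] at h6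
          exact absurd h6.1 (by decide)
      · rfl
  · subst h2
    set w : ℤ × ℤ := (z.1, z.2 + 1) with hw
    have hwz : z + dir 2 = w := by ext <;> simp [dir, hw]
    rw [hwz]
    have hne : ∀ t, T ≤ t → eph (st d t) w ≠ 0 := by
      intro t ht h3
      obtain ⟨h4, h5⟩ := hT t ht
      rw [mv_two h4, if_pos h3] at h5
      have := congrArg Prod.snd h5
      simp at this
    by_cases hc : ∃ t, T ≤ t ∧ eph (st d t) w = 1
    · left
      obtain ⟨t, ht, h3⟩ := hc
      have stay : ∀ s, T ≤ s → st d s w = 1 → mv (st d s) w = w := by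
        intro s hs h4
        rw [mv_one h4]
        split_ifs with h5
        · exfalso
          apply hne s hs
          rw [eph_zero]
          left
          exact ⟨h4, h5⟩
        · rfl
      have all : ∀ s : ℕ, st d (t + 1 + s) w = 1 := by
        intro s
        induction s with
        | zero => rw [add_zero, st, nph_one]; exact h3
        | succ s ih =>
          have h6 := stay (t + 1 + s) (by omega) ih
          have h7 := cyc_mv (d := st d (t + 1 + s)) (z := w) (by rw [ih]; decide)
          rw [h6, ih] at h7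
          exact h7
      refine ⟨t + 1, fun s hs => ?_⟩
      obtain ⟨r, rfl⟩ := Nat.exists_eq_add_of_le hs
      exact ⟨all r, stay _ (by omega) (all r)⟩
    · right
      push Not at hc
      have h1 : ∀ t, T ≤ t → st d t w = 2 := by
        intro t ht
        rw [← eph_two]
        rcases fin3 (eph (st d t) w) with h3 | h3 | h3
        · exact absurd h3 (hne t ht)
        · exact absurd h3 (hc t ht)
        · exact h3
      refine ⟨T, fun t ht => ⟨h1 t ht, ?_⟩⟩
      rw [mv_two (h1 t ht)]
      split_ifs with h5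
      · exfalso
        have h6 := h1 (t + 1) (by omega)
        rw [st, cyc_two] at h6
        rcases h6 with h6 | h6
        · exact h6.2 h5
        · have h7 := (eph_two _ _).2 (h1 t ht)
          rw [h6.1] at h7
          exact absurd h7 (by decide)
      · rfl

theorem SJ_sh (v : ℤ × ℤ) (d : Cfg) (z : ℤ × ℤ) (k : Fin 3) :
    SJ (sh v d) z k ↔ SJ d (z + v) k := by
  unfold SJ
  refine exists_congr fun T => forall_congr' fun t => imp_congr Iff.rfl ?_
  rw [st_sh, mv_sh, sub_eq_iff_eq_add]
  rfl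

theorem ms_SJ (z : ℤ × ℤ) (k : Fin 3) : MeasurableSet {d : Cfg | SJ d z k} := by
  have : {d : Cfg | SJ d z k} = ⋃ T : ℕ, ⋂ t : ℕ, ⋂ _ : T ≤ t,
      ({d : Cfg | st d t z = k} ∩ {d : Cfg | mv (st d t) z = z}) := by
    ext d; simp [SJ]
  rw [this]
  refine MeasurableSet.iUnion fun T => MeasurableSet.iInter fun t => MeasurableSet.iInter fun _ => ?_
  refine MeasurableSet.inter ((measurable_st t) (ms_coord z k)) ?_
  have h : Measurable (fun d : Cfg => mv (st d t) z) :=
    measurable_mv.comp ((measurable_st t).prodMk measurable_const)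
  exact h (MeasurableSet.singleton z)

variable (ν : Measure (Fin 3)) [IsProbabilityMeasure ν]

theorem SJ_le {k : Fin 3} (hk : k ≠ 0) : (Law ν) {d | SJ d 0 k} ≤ ν {k} := by
  set S : ℕ → Set Cfg := fun T => {d | ∀ t, T ≤ t → st d t 0 = k} with hS
  have hmono : Monotone S := fun T T' hT d hd t ht => hd t (hT.trans ht)
  have hsub : {d : Cfg | SJ d 0 k} ⊆ ⋃ T, S T := by
    rintro d ⟨T, hT⟩
    exact mem_iUnion.2 ⟨T, fun t ht => (hT t ht).1⟩
  refine (measure_mono hsub).trans ?_
  rw [hmono.measure_iUnion]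
  refine iSup_le fun T => ?_
  rw [← density ν hk T 0]
  exact measure_mono fun d hd => hd T le_rfl

/-- If the cars of type `k` jam, some car of another type jams. -/
theorem other_jams {k : Fin 3} (hk : k ≠ 0) (h0 : ν {k} ≠ 0) (h1 : ν {k} ≠ 1)
    (hJ : ∀ᵐ d ∂(Law ν), ∀ x, d x = k → JM d x) :
    ∀ᵐ d ∂(Law ν), ∃ x, d x ≠ 0 ∧ d x ≠ k ∧ JM d x := by
  -- there is a car of type `k`
  have hpos : (Law ν) {d : Cfg | d 0 = k} ≠ 0 := by rw [law_coord]; exact h0
  have hr1 := recur ν (dir_ne_zero hk) (ms_coord 0 k) hpos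
  have hlt : (Law ν) {d : Cfg | SJ d 0 k} < 1 :=
    lt_of_le_of_lt (SJ_le ν hk) (lt_of_le_of_ne prob_le_one h1)
  have hpos2 : (Law ν) ({d : Cfg | SJ d 0 k}ᶜ) ≠ 0 := by
    rw [prob_compl_eq_one_sub (ms_SJ 0 k)]
    exact (tsub_pos_of_lt hlt).ne'
  have hr2 := recur ν (dir_ne_zero hk) (ms_SJ 0 k).compl hpos2
  filter_upwards [hJ, hr1, hr2] with d h3 h4 h5
  obtain ⟨n, -, h6⟩ := h4 0
  simp only [mem_ofPred_eq, sh, zero_add] at h6
  have h7 : d (n • dir k) ≠ 0 := by rw [h6]; exact hk
  obtain ⟨z, h8⟩ := SJ_of_JM h7 (h3 _ h6)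
  rw [h6] at h8
  by_contra hcon
  push Not at hcon
  have hstep : ∀ w, SJ d w k → SJ d (w + dir k) k := by
    intro w hw
    have hno : ∀ k' : Fin 3, k' ≠ 0 → SJ d (w + dir k) k' → k' = k := by
      intro k' hk' h9
      obtain ⟨x, h10, h11⟩ := JM_of_SJ hk' h9
      by_contra h12
      exact hcon x (by rw [h10]; exact hk') (by rw [h10]; exact h12) h11
    rcases SJ_next hk hw with h9 | h9
    · have := hno 1 (by decide) h9
      rwa [this] at h9
    · have := hno 2 (by decide) h9
      rwa [this] at h9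
  have hall : ∀ m : ℕ, SJ d (z + m • dir k) k := by
    intro m
    induction m with
    | zero => simpa using h8
    | succ m ih =>
      have := hstep _ ih
      rw [add_assoc, ← succ_nsmul] at this
      exact this
  obtain ⟨m, -, h9⟩ := h5 z
  apply h9
  simp only [mem_ofPred_eq, SJ_sh, zero_add]
  exact hall m

/-- **Jamming: all or none.** -/
theorem jam_all_or_none (h1 : ν {1} ≠ 0) (h2 : ν {2} ≠ 0) (h1' : ν {1} ≠ 1) (h2' : ν {2} ≠ 1) :
    (∀ᵐ d ∂(Law ν), ∀ x, d x ≠ 0 → JM d x) ∨ (∀ᵐ d ∂(Law ν), ∀ x, d x ≠ 0 → ¬ JM d x) := by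
  have key : ∀ k : Fin 3, k ≠ 0 → (∀ᵐ d ∂(Law ν), ∀ x, d x = k → JM d x) ∨
      (∀ᵐ d ∂(Law ν), ∀ x, d x = k → ¬ JM d x) := by
    intro k hk
    rcases all_or_none ν hk (fun d x => ¬ JM d x) ms_JM.compl
      (fun v d x => not_congr (JM_sh v d x)) (not_JM_ahead hk) with h | h
    · exact Or.inr h
    · left
      filter_upwards [h] with d hd x hx
      exact not_not.1 (hd x hx)
  rcases key 1 (by decide) with ha | ha <;> rcases key 2 (by decide) with hb | hb
  · left
    filter_upwards [ha, hb] with d e1 e2 x hx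
    rcases fin3 (d x) with h | h | h
    · exact absurd h hx
    · exact e1 x h
    · exact e2 x h
  · exfalso
    have h3 := other_jams ν (k := 1) (by decide) h1 h1' ha
    obtain ⟨d, ⟨x, e1, e2, e3⟩, e4⟩ := (h3.and hb).exists
    rcases fin3 (d x) with h | h | h
    · exact e1 h
    · exact e2 h
    · exact e4 x h e3
  · exfalso
    have h3 := other_jams ν (k := 2) (by decide) h2 h2' hb
    obtain ⟨d, ⟨x, e1, e2, e3⟩, e4⟩ := (h3.and ha).exists
    rcases fin3 (d x) with h | h | h
    · exact e1 h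
    · exact e4 x h e3
    · exact e2 h
  · right
    filter_upwards [ha, hb] with d e1 e2 x hx
    rcases fin3 (d x) with h | h | h
    · exact absurd h hx
    · exact e1 x h
    · exact e2 x h

end Pool.Agent.Helper541_BML
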