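import Pool.Agent.Helper541_BML.Bridge

/-!
# Blockings in windows of time: a logarithmic lower bound
-/

set_option autoImplicit false

namespace Pool.Agent.Helper541_BML

open MeasureTheory ProbabilityTheory Set Filter Topology
open scoped ENNReal
open Pool.Agent.R203.Bern (iid)

/-! ### Finite range -/

theorem eph_local {d d' : Cfg} {x : ℤ × ℤ} (h : ∀ z : ℤ × ℤ, |z.1 - x.1| ≤ 1 → z.2 = x.2 → d z = d' z) :
    eph d x = eph d' x := by
  have h0 := h x (by simp) rfl
  have h1 := h (x.1 + 1, x.2) (by simp) rfl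
  have h2 := h (x.1 - 1, x.2) (by simp) rfl
  simp only [eph, h0, h1, h2]

theorem nph_local {d d' : Cfg} {x : ℤ × ℤ} (h : ∀ z : ℤ × ℤ, z.1 = x.1 → |z.2 - x.2| ≤ 1 → d z = d' z) :
    nph d x = nph d' x := by
  have h0 := h x rfl (by simp)
  have h1 := h (x.1, x.2 + 1) rfl (by simp)
  have h2 := h (x.1, x.2 - 1) rfl (by simp)
  simp only [nph, h0, h1, h2]

theorem st_local (t : ℕ) {d d' : Cfg} {x : ℤ × ℤ}
    (h : ∀ z : ℤ × ℤ, |z.1 - x.1| ≤ t → |z.2 - x.2| ≤ t → d z = d' z) :
    st d t x = st d' t x := by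
  induction t generalizing x with
  | zero => exact h x (by simp) (by simp)
  | succ t ih =>
    rw [st, st]
    apply nph_local
    intro z h1 h2
    apply eph_local
    intro w h3 h4
    apply ih
    intro u h5 h6
    apply h
    · push_cast
      rw [abs_le] at *
      constructor <;> omega
    · push_cast
      rw [abs_le] at *
      constructor <;> omega

/-- the box of radius `t` about `x` -/
noncomputable def box (x : ℤ × ℤ) (t : ℕ) : Finset (ℤ × ℤ) :=
  Finset.Icc (x.1 - t) (x.1 + t) ×ˢ Finset.Icc (x.2 - t) (x.2 + t)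

theorem mem_box {x z : ℤ × ℤ} {t : ℕ} : z ∈ box x t ↔ |z.1 - x.1| ≤ t ∧ |z.2 - x.2| ≤ t := by
  unfold box
  rw [Finset.mem_product, Finset.mem_Icc, Finset.mem_Icc, abs_le, abs_le]
  constructor
  · rintro ⟨⟨h1, h2⟩, h3, h4⟩
    exact ⟨⟨by omega, by omega⟩, by omega, by omega⟩
  · rintro ⟨⟨h1, h2⟩, h3, h4⟩
    exact ⟨⟨by omega, by omega⟩, by omega, by omega⟩

variable (ν : Measure (Fin 3)) [IsProbabilityMeasure ν]

/-- Events which depend on disjoint finite sets of sites are independent. -/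
theorem indep_local {F G : Finset (ℤ × ℤ)} (hFG : Disjoint F G) {A B : Set Cfg}
    (hA : ∀ d d' : Cfg, (∀ x ∈ F, d x = d' x) → d ∈ A → d' ∈ A)
    (hB : ∀ d d' : Cfg, (∀ x ∈ G, d x = d' x) → d ∈ B → d' ∈ B) :
    (Law ν) (A ∩ B) = (Law ν) A * (Law ν) B := by
  have h1 : iIndepFun (fun (i : ℤ × ℤ) (x : Cfg) => x i) (Law ν) :=
    iIndepFun_infinitePi (P := fun _ : ℤ × ℤ => ν) (X := fun _ : ℤ × ℤ => (id : Fin 3 → Fin 3))
      (fun _ => measurable_id)
  have h2 := h1.indepFun_finset F G hFG (fun i => measurable_pi_apply i)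
  have key : ∀ (H : Finset (ℤ × ℤ)) (C : Set Cfg),
      (∀ d d' : Cfg, (∀ x ∈ H, d x = d' x) → d ∈ C → d' ∈ C) →
      ∃ S : Set (H → Fin 3), MeasurableSet S ∧ C = (fun (x : Cfg) (i : H) => x i) ⁻¹' S := by
    intro H C hC
    refine ⟨(fun (x : Cfg) (i : H) => x i) '' C, (Set.to_countable _).measurableSet, ?_⟩
    ext d
    constructor
    · intro hd
      exact ⟨d, hd, rfl⟩
    · rintro ⟨d', hd', he⟩
      refine hC d' d (fun x hx => ?_) hd'
      exact congrFun he ⟨x, hx⟩
  obtain ⟨S, hS, eS⟩ := key F A hA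
  obtain ⟨S', hS', eS'⟩ := key G B hB
  rw [eS, eS']
  exact h2.measure_inter_preimage_eq_mul S S' hS hS'

/-- the rate at which the cars of type `k` are blocked in cycle `s + 1` -/
noncomputable def blk (k : Fin 3) (s : ℕ) : ℝ :=
  (Law ν).real {d | d 0 = k ∧ nm d 0 (s + 1) = nm d 0 s}

/-- the car at `0` fails to move in one of `r` cycles -/
def Bl (r : ℕ) : Set Cfg := {d | ∃ i : ℕ, i < r ∧ car d 0 (i + 1) = car d 0 i}

theorem ms_Bl (r : ℕ) : MeasurableSet (Bl r) := by
  have : Bl r = ⋃ i : ℕ, ⋃ _ : i < r, {d : Cfg | car d 0 (i + 1) = car d 0 i} := by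
    ext d; simp [Bl]
  rw [this]
  exact MeasurableSet.iUnion fun i => MeasurableSet.iUnion fun _ =>
    measurableSet_eq_fun (measurable_car 0 _) (measurable_car 0 _)

theorem blocked_le {k : Fin 3} (hk : k ≠ 0) (t r : ℕ) :
    (Law ν).real {d | st d t 0 = k ∧ st d t ∈ Bl r} ≤ ∑ i ∈ Finset.range r, blk ν k (t + i) := by
  have h1 := transport ν hk t (ms_Bl r)
  rw [measureReal_def, ← h1, ← measureReal_def]
  have h2 : {d : Cfg | d 0 = k ∧ sh (car d 0 t) (st d t) ∈ Bl r} ⊆
      ⋃ i ∈ Finset.range r, {d | d 0 = k ∧ nm d 0 (t + i + 1) = nm d 0 (t + i)} := by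
    rintro d ⟨h3, i, hi, h4⟩
    rw [mem_iUnion₂]
    refine ⟨i, Finset.mem_range.2 hi, h3, ?_⟩
    rw [car_sh, car_sh, zero_add, sub_left_inj, ← car_add, ← car_add, ← add_assoc] at h4
    rw [nm, nm, h4]
  refine (measureReal_mono h2 (measure_ne_top _ _)).trans ?_
  exact measureReal_biUnion_finset_le _ _

/-- Two cars which must meet: one of them is blocked in time. -/
theorem meet {d : Cfg} {r : ℕ} (h1 : d (-(r : ℤ), (r : ℤ)) = 1) (h2 : d 0 = 2) :
    sh (-(r : ℤ), (r : ℤ)) d ∈ Bl r ∨ d ∈ Bl r := by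
  by_contra hcon
  push Not at hcon
  obtain ⟨h3, h4⟩ := hcon
  have full : ∀ (d' : Cfg) (k : Fin 3), k ≠ 0 → d' 0 = k → d' ∉ Bl r →
      ∀ i : ℕ, i ≤ r → car d' 0 i = (i : ℤ) • dir k := by
    intro d' k hk hd hB i
    induction i with
    | zero => intro _; simp [car]
    | succ i ih =>
      intro hi
      have h5 := ih (by omega)
      have h0 : d' 0 ≠ 0 := by rw [hd]; exact hk
      have h6 : st d' i (car d' 0 i) ≠ 0 := by rw [st_car h0]; exact h0
      rcases mv_cases h6 with h7 | ⟨h7, -⟩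
      · exfalso
        apply hB
        exact ⟨i, by omega, h7⟩
      · rw [car, h7, st_car h0, hd, h5]
        push_cast
        rw [add_smul, one_smul]
  have e1 := full _ 1 (by decide) (by simpa [sh] using h1) h3 r le_rfl
  have e2 := full _ 2 (by decide) h2 h4 r le_rfl
  rw [car_sh, zero_add, sub_eq_iff_eq_add] at e1
  have e3 : (r : ℤ) • dir 1 + (-(r : ℤ), (r : ℤ)) = (r : ℤ) • dir 2 := by
    ext <;> simp [dir]
  rw [e3] at e1
  have h5 := st_car (d := d) (x := 0) (by rw [h2]; decide) r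
  have h6 := st_car (d := d) (x := (-(r : ℤ), (r : ℤ))) (by rw [h1]; decide) r
  rw [e2, h2] at h5
  rw [e1, h1, h5] at h6
  exact absurd h6 (by decide)

/-- In every window of time from `t` to `3 t + 1` there is a definite number of blockings. -/
theorem window_lower (t : ℕ) : ν.real {1} * ν.real {2} ≤
    ∑ i ∈ Finset.range (2 * t + 1), (blk ν 1 (t + i) + blk ν 2 (t + i)) := by
  set μ := Law ν with hμ
  set r : ℕ := 2 * t + 1 with hr
  set a : ℤ × ℤ := (-(r : ℤ), (r : ℤ)) with ha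
  have hdisj : Disjoint (box a t) (box 0 t) := by
    rw [Finset.disjoint_left]
    intro z h1 h2
    rw [mem_box, abs_le, abs_le] at h1 h2
    simp only [ha, Prod.fst_zero, Prod.snd_zero] at h1 h2
    have := h1.1.2
    have := h2.1.1
    omega
  have hind : μ ({d | st d t a = 1} ∩ {d | st d t 0 = 2}) =
      μ {d | st d t a = 1} * μ {d | st d t 0 = 2} := by
    apply indep_local ν hdisj
    · intro d d' h h1
      simp only [mem_ofPred_eq] at h1 ⊢
      rw [← h1]
      symm
      exact st_local t fun z h2 h3 => h z (mem_box.2 ⟨h2, h3⟩)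
    · intro d d' h h1
      simp only [mem_ofPred_eq] at h1 ⊢
      rw [← h1]
      symm
      exact st_local t fun z h2 h3 => h z (mem_box.2 ⟨h2, h3⟩)
  have hprod : μ.real ({d | st d t a = 1} ∩ {d | st d t 0 = 2}) = ν.real {1} * ν.real {2} := by
    rw [measureReal_def, hind, ENNReal.toReal_mul, hμ, density ν (by decide) t a,
      density ν (by decide) t 0]
    rfl
  have hsub : ({d | st d t a = 1} ∩ {d | st d t 0 = 2}) ⊆
      (sh a ⁻¹' {d | st d t 0 = 1 ∧ st d t ∈ Bl r}) ∪ {d | st d t 0 = 2 ∧ st d t ∈ Bl r} := by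
    rintro d ⟨h1, h2⟩
    rcases meet (d := st d t) (r := r) h1 h2 with h | h
    · left
      simp only [mem_preimage, mem_ofPred_eq, st_sh]
      exact ⟨by simpa [sh] using h1, h⟩
    · right
      exact ⟨h2, h⟩
  have hm : MeasurableSet {d : Cfg | st d t 0 = 1 ∧ st d t ∈ Bl r} :=
    ((measurable_st t) (ms_coord 0 1)).inter ((measurable_st t) (ms_Bl r))
  rw [← hprod, Finset.sum_add_distrib]
  calc μ.real ({d | st d t a = 1} ∩ {d | st d t 0 = 2})
      ≤ μ.real ((sh a ⁻¹' {d | st d t 0 = 1 ∧ st d t ∈ Bl r}) ∪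
        {d | st d t 0 = 2 ∧ st d t ∈ Bl r}) := measureReal_mono hsub
    _ ≤ μ.real (sh a ⁻¹' {d | st d t 0 = 1 ∧ st d t ∈ Bl r}) +
        μ.real {d | st d t 0 = 2 ∧ st d t ∈ Bl r} := measureReal_union_le _ _
    _ = μ.real {d | st d t 0 = 1 ∧ st d t ∈ Bl r} +
        μ.real {d | st d t 0 = 2 ∧ st d t ∈ Bl r} := by
        congr 1
        rw [measureReal_def, hμ, measure_sh ν hm, ← measureReal_def]
    _ ≤ _ := add_le_add (blocked_le ν (by decide) t r) (blocked_le ν (by decide) t r)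

/-- end points of the windows -/
def wnd : ℕ → ℕ
  | 0 => 0
  | j + 1 => 3 * wnd j + 1

theorem wnd_eq (j : ℕ) : 2 * wnd j + 1 = 3 ^ j := by
  induction j with
  | zero => simp [wnd]
  | succ j ih => rw [wnd, pow_succ, ← ih]; ring

theorem blk_nonneg (k : Fin 3) (s : ℕ) : 0 ≤ blk ν k s := measureReal_nonneg

theorem wnd_lower (j : ℕ) : (j : ℝ) * (ν.real {1} * ν.real {2}) ≤
    ∑ s ∈ Finset.range (wnd j), (blk ν 1 s + blk ν 2 s) := by
  induction j with
  | zero => simp [wnd]
  | succ j ih =>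
    have h1 := window_lower ν (wnd j)
    have e : wnd (j + 1) = wnd j + (2 * wnd j + 1) := by rw [wnd]; ring
    rw [e, Finset.sum_range_add]
    push_cast
    linarith

theorem log_lower (n : ℕ) : (Nat.log 3 (2 * n + 1) : ℝ) * (ν.real {1} * ν.real {2}) ≤
    ∑ s ∈ Finset.range n, (blk ν 1 s + blk ν 2 s) := by
  set j := Nat.log 3 (2 * n + 1) with hj
  have h1 : 3 ^ j ≤ 2 * n + 1 := Nat.pow_log_le_self 3 (by omega)
  rw [← wnd_eq] at h1
  refine (wnd_lower ν j).trans ?_
  refine Finset.sum_le_sum_of_subset_of_nonneg ?_ ?_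
  · intro s hs
    rw [Finset.mem_range] at hs ⊢
    omega
  · intro s _ _
    exact add_nonneg (blk_nonneg ν 1 s) (blk_nonneg ν 2 s)

/-- The number of blocked cycles, on the average. -/
theorem mean_blocked {k : Fin 3} (hk : k ≠ 0) (n : ℕ) :
    ∑ s ∈ Finset.range n, blk ν k s =
      ∫ d in {d : Cfg | d 0 = k}, ((n : ℝ) - (nm d 0 n : ℝ)) ∂(Law ν) := by
  set μ := Law ν with hμ
  set A : Set Cfg := {d | d 0 = k} with hA
  have hAm : MeasurableSet A := ms_coord 0 k
  set W : ℕ → Set Cfg := fun i => {d | d 0 = k ∧ nm d 0 (i + 1) = nm d 0 i} with hW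
  have hWm : ∀ i, MeasurableSet (W i) := fun i =>
    (ms_coord 0 k).inter (measurableSet_eq_fun (measurable_nm 0 _) (measurable_nm 0 _))
  have hpt : ∀ d ∈ A, ((n : ℝ) - (nm d 0 n : ℝ)) =
      ∑ i ∈ Finset.range n, (W i).indicator (fun _ => (1 : ℝ)) d := by
    intro d hd
    have h3 : d 0 = k := hd
    have h0 : d 0 ≠ 0 := by rw [h3]; exact hk
    induction n with
    | zero => simp [nm_zero]
    | succ n ih =>
      rw [Finset.sum_range_succ, ← ih]
      by_cases hw : d ∈ W n
      · rw [indicator_of_mem hw, hw.2]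
        push_cast
        ring
      · rw [indicator_of_notMem hw]
        rcases nm_succ h0 n with h4 | h4
        · exact absurd ⟨h3, h4⟩ hw
        · rw [h4]
          push_cast
          ring
  rw [setIntegral_congr_fun hAm hpt, integral_finsetSum]
  · refine Finset.sum_congr rfl fun i _ => ?_
    rw [integral_indicator (hWm i), Measure.restrict_restrict (hWm i), setIntegral_const, smul_eq_mul,
      mul_one]
    unfold blk
    congr 1
    ext d
    simp only [mem_inter_iff, hW, hA, mem_ofPred_eq]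
    tauto
  · intro i _
    exact ((integrable_const (1 : ℝ)).indicator (hWm i)).integrableOn

/-- **Logarithmic lower bound.** -/
theorem log_blocked (n : ℕ) : (Nat.log 3 (2 * n + 1) : ℝ) * (ν.real {1} * ν.real {2}) ≤
    ∫ d in {d : Cfg | d 0 ≠ 0}, ((n : ℝ) - (nm d 0 n : ℝ)) ∂(Law ν) := by
  have h1 := log_lower ν n
  rw [Finset.sum_add_distrib, mean_blocked ν (by decide) n, mean_blocked ν (by decide) n] at h1
  have e : {d : Cfg | d 0 ≠ 0} = {d | d 0 = 1} ∪ {d | d 0 = 2} := by
    ext d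
    rcases fin3 (d 0) with h | h | h <;> simp [h]
  have hd : Disjoint {d : Cfg | d 0 = 1} {d | d 0 = 2} := by
    rw [Set.disjoint_left]
    intro d h3 h4
    simp only [mem_ofPred_eq] at h3 h4
    rw [h3] at h4
    exact absurd h4 (by decide)
  have hint : ∀ k : Fin 3, k ≠ 0 →
      IntegrableOn (fun d : Cfg => ((n : ℝ) - (nm d 0 n : ℝ))) {d | d 0 = k} (Law ν) := by
    intro k hk
    refine Integrable.of_bound (C := (n : ℝ))
      ((measurable_nmR 0 _).const_sub _).aestronglyMeasurable ?_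
    rw [ae_restrict_iff' (ms_coord 0 k)]
    refine Eventually.of_forall fun d hd => ?_
    have h3 : d 0 = k := hd
    have h0 : d 0 ≠ 0 := by rw [h3]; exact hk
    have h4 : (nm d 0 n : ℝ) ≤ n := by exact_mod_cast nm_le h0 n
    have h5 : (0 : ℝ) ≤ (nm d 0 n : ℝ) := by exact_mod_cast nm_nonneg h0 n
    rw [Real.norm_eq_abs, abs_of_nonneg (by linarith)]
    linarith
  rw [e, setIntegral_union hd (ms_coord 0 2) (hint 1 (by decide)) (hint 2 (by decide))]
  exact h1

end Pool.Agent.Helper541_BML
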