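import Pool.Agent.Helper541_BML.Base
import Pool.Agent.R203.Bern

/-!
# The Biham-Middleton-Levine traffic model: the i.i.d. initial state

Measurability, translation invariance, recurrence, conservation of density, mass transport.
-/

set_option autoImplicit false

namespace Pool.Agent.Helper541_BML

open MeasureTheory ProbabilityTheory Set Filter Topology
open scoped ENNReal symmDiff
open Pool.Agent.R203.Bern (iid map_comp measurable_comp approx indep_coord)

/-! ### Measurability -/

theorem ms_coord (x : ℤ × ℤ) (k : Fin 3) : MeasurableSet {d : Cfg | d x = k} := by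
  have h : Measurable (fun d : Cfg => d x) := measurable_pi_apply x
  exact h (MeasurableSet.singleton k)

theorem measurable_eph : Measurable eph := by
  refine measurable_pi_iff.2 fun x => ?_
  refine Measurable.ite ((ms_coord x 1).inter (ms_coord _ 0)) measurable_const ?_
  exact Measurable.ite ((ms_coord x 0).inter (ms_coord _ 1)) measurable_const
    (measurable_pi_apply x)

theorem measurable_nph : Measurable nph := by
  refine measurable_pi_iff.2 fun x => ?_
  refine Measurable.ite ((ms_coord x 2).inter (ms_coord _ 0)) measurable_const ?_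
  exact Measurable.ite ((ms_coord x 0).inter (ms_coord _ 2)) measurable_const
    (measurable_pi_apply x)

theorem measurable_st (t : ℕ) : Measurable (fun d : Cfg => st d t) := by
  induction t with
  | zero => exact measurable_id
  | succ t ih => exact measurable_nph.comp (measurable_eph.comp ih)

theorem measurable_sh (v : ℤ × ℤ) : Measurable (sh v) := measurable_comp (fun x => x + v)

theorem measurable_mv : Measurable (fun q : Cfg × (ℤ × ℤ) => mv q.1 q.2) := by
  refine measurable_from_prod_countable_left fun z => ?_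
  have h : Measurable (fun d : Cfg => mv d z) := by
    refine Measurable.ite ((ms_coord z 1).inter (ms_coord (z.1 + 1, z.2) 0)) measurable_const ?_
    refine Measurable.ite ((ms_coord z 2).inter ?_) measurable_const measurable_const
    exact measurable_eph (ms_coord (z.1, z.2 + 1) 0)
  exact h

theorem measurable_car (x : ℤ × ℤ) (t : ℕ) : Measurable (fun d : Cfg => car d x t) := by
  induction t with
  | zero => exact measurable_const
  | succ t ih => exact measurable_mv.comp ((measurable_st t).prodMk ih)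

theorem measurable_nm (x : ℤ × ℤ) (t : ℕ) : Measurable (fun d : Cfg => nm d x t) := by
  unfold nm
  have h : Measurable (fun z : ℤ × ℤ => (z - x).1 + (z - x).2) := measurable_of_countable _
  exact h.comp (measurable_car x t)

theorem measurable_sh_car (x : ℤ × ℤ) (t : ℕ) :
    Measurable (fun d : Cfg => sh (car d x t) (st d t)) := by
  have h : Measurable (fun q : Cfg × (ℤ × ℤ) => sh q.2 q.1) :=
    measurable_from_prod_countable_left fun z => measurable_sh z
  exact h.comp ((measurable_st t).prodMk (measurable_car x t))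

/-! ### Mixing and recurrence -/

section mixing

universe u v

variable {ι : Type u} {T : Type v} [MeasurableSpace T] (lam : Measure T) [IsProbabilityMeasure lam]

theorem mixing_gen [Countable ι] (f : ℕ → ι → ι) (hf : ∀ n, Function.Injective (f n))
    (hfar : ∀ F G : Finset ι, ∃ N, ∀ n ≥ N, ∀ i ∈ F, f n i ∉ G)
    {A B : Set (ι → T)} (hA : MeasurableSet A) (hB : MeasurableSet B) :
    Tendsto (fun n : ℕ => (iid ι lam).real ((fun (x : ι → T) (k : ι) => x (f n k)) ⁻¹' A ∩ B)) atTop
      (𝓝 ((iid ι lam).real A * (iid ι lam).real B)) := by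
  classical
  set μ := iid ι lam with hμ
  rw [Metric.tendsto_atTop]
  intro ε hε
  set δ := ε / 5 with hδ
  have hδ0 : 0 < δ := by positivity
  obtain ⟨F, S, hS, hlt⟩ := approx lam hA (ENNReal.ofReal_pos.2 hδ0)
  obtain ⟨G, S', hS', hlt'⟩ := approx lam hB (ENNReal.ofReal_pos.2 hδ0)
  set C : Set (ι → T) := F.restrict ⁻¹' S with hC
  set D : Set (ι → T) := G.restrict ⁻¹' S' with hD
  have hCm : MeasurableSet C := (Finset.measurable_restrict F) hS
  have hDm : MeasurableSet D := (Finset.measurable_restrict G) hS'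
  have hdC : μ.real (C ∆ A) ≤ δ := by
    rw [measureReal_def]
    exact ENNReal.toReal_le_of_le_ofReal hδ0.le hlt.le
  have hdD : μ.real (D ∆ B) ≤ δ := by
    rw [measureReal_def]
    exact ENNReal.toReal_le_of_le_ofReal hδ0.le hlt'.le
  obtain ⟨M, hM⟩ := hfar F G
  refine ⟨M, fun n hn => ?_⟩
  set Φ : (ι → T) → (ι → T) := fun x k => x (f n k) with hΦ
  have hmp : MeasurePreserving Φ μ μ := ⟨measurable_comp (f n), map_comp lam (f n) (hf n)⟩
  have hnot : ∀ k : F, f n k ∉ G := fun k => hM n hn k k.2
  have hind := indep_coord lam G (fun k : F => f n k) hnot Finset.univ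
  have hind2 := hind.comp (φ := id) (ψ := fun z : (↥(Finset.univ : Finset F) → T) =>
    fun k : F => z ⟨k, Finset.mem_univ k⟩) measurable_id
    (measurable_pi_lambda _ fun k => measurable_pi_apply _)
  have e1 : μ.real (Φ ⁻¹' C ∩ D) = μ.real C * μ.real D := by
    have h3 := hind2.measure_inter_preimage_eq_mul S' S hS' hS
    have h4 : Φ ⁻¹' C = (fun x : ι → T => fun k : F => x (f n k)) ⁻¹' S := by
      ext x
      rfl
    have h5 : μ.real (Φ ⁻¹' C) = μ.real C := by
      rw [measureReal_def, hmp.measure_preimage hCm.nullMeasurableSet, measureReal_def]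
    rw [← h5, mul_comm, Set.inter_comm, measureReal_def, h4, measureReal_def, measureReal_def,
      ← ENNReal.toReal_mul]
    exact congrArg ENNReal.toReal h3
  have hsub : ∀ X Y : Set (ι → T), μ.real X ≤ μ.real Y + μ.real (X \ Y) := by
    intro X Y
    calc μ.real X ≤ μ.real (Y ∪ (X \ Y)) := measureReal_mono (by
          intro z hz; by_cases h : z ∈ Y <;> simp [h, hz])
      _ ≤ _ := measureReal_union_le _ _
  have hpre : μ.real (Φ ⁻¹' (C ∆ A)) ≤ δ := by
    rw [measureReal_def, hmp.measure_preimage (hCm.symmDiff hA).nullMeasurableSet,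
      ← measureReal_def]
    exact hdC
  have hU : μ.real (Φ ⁻¹' (C ∆ A) ∪ (D ∆ B)) ≤ 2 * δ := by
    refine (measureReal_union_le _ _).trans ?_
    linarith
  have t1 : μ.real ((Φ ⁻¹' A ∩ B) \ (Φ ⁻¹' C ∩ D)) ≤ 2 * δ := by
    refine (measureReal_mono ?_).trans hU
    intro ω hω
    simp only [Set.mem_sdiff, mem_inter_iff, mem_preimage, mem_union, Set.mem_symmDiff] at hω ⊢
    tauto
  have t2 : μ.real ((Φ ⁻¹' C ∩ D) \ (Φ ⁻¹' A ∩ B)) ≤ 2 * δ := by
    refine (measureReal_mono ?_).trans hU
    intro ω hω
    simp only [Set.mem_sdiff, mem_inter_iff, mem_preimage, mem_union, Set.mem_symmDiff] at hω ⊢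
    tauto
  have s1 := hsub (Φ ⁻¹' A ∩ B) (Φ ⁻¹' C ∩ D)
  have s2 := hsub (Φ ⁻¹' C ∩ D) (Φ ⁻¹' A ∩ B)
  have e4 : |μ.real C - μ.real A| ≤ δ := by
    have := abs_measureReal_sub_le_measureReal_symmDiff (μ := μ) hCm.nullMeasurableSet
      hA.nullMeasurableSet
    exact this.trans hdC
  have e5 : |μ.real D - μ.real B| ≤ δ := by
    have := abs_measureReal_sub_le_measureReal_symmDiff (μ := μ) hDm.nullMeasurableSet
      hB.nullMeasurableSet
    exact this.trans hdD
  have c0 : 0 ≤ μ.real C := measureReal_nonneg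
  have c1 : μ.real C ≤ 1 := measureReal_le_one
  have b0 : 0 ≤ μ.real B := measureReal_nonneg
  have b1 : μ.real B ≤ 1 := measureReal_le_one
  have e6 : |μ.real C * μ.real D - μ.real A * μ.real B| ≤ 2 * δ := by
    have : μ.real C * μ.real D - μ.real A * μ.real B =
        μ.real C * (μ.real D - μ.real B) + (μ.real C - μ.real A) * μ.real B := by ring
    rw [this]
    refine (abs_add_le _ _).trans ?_
    rw [abs_mul, abs_mul, abs_of_nonneg c0, abs_of_nonneg b0]
    nlinarith [abs_nonneg (μ.real D - μ.real B), abs_nonneg (μ.real C - μ.real A)]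
  rw [Real.dist_eq]
  rw [e1] at s1 s2
  rw [abs_le] at e6
  rw [abs_lt]
  constructor <;> linarith

end mixing

variable (ν : Measure (Fin 3)) [IsProbabilityMeasure ν]

/-- The law of the initial state: independent sites with the one-site law `ν`. -/
noncomputable abbrev Law : Measure Cfg := iid (ℤ × ℤ) ν

theorem mp_sh (v : ℤ × ℤ) : MeasurePreserving (sh v) (Law ν) (Law ν) :=
  ⟨measurable_sh v, map_comp ν (fun x => x + v) (fun a b h => by simpa using h)⟩

theorem ae_sh {P : Cfg → Prop} (h : ∀ᵐ d ∂(Law ν), P d) (v : ℤ × ℤ) :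
    ∀ᵐ d ∂(Law ν), P (sh v d) :=
  (mp_sh ν v).quasiMeasurePreserving.ae h

theorem measure_sh {A : Set Cfg} (hA : MeasurableSet A) (v : ℤ × ℤ) :
    (Law ν) (sh v ⁻¹' A) = (Law ν) A :=
  (mp_sh ν v).measure_preimage hA.nullMeasurableSet

theorem sh_sh (v w : ℤ × ℤ) (d : Cfg) : sh v (sh w d) = sh (v + w) d := by
  funext x
  simp only [sh]
  congr 1
  abel

theorem sh_zero (d : Cfg) : sh 0 d = d := by
  funext x
  simp [sh]

theorem far (v : ℤ × ℤ) (hv : v ≠ 0) (F G : Finset (ℤ × ℤ)) :
    ∃ N : ℕ, ∀ n ≥ N, ∀ i ∈ F, i + n • v ∉ G := by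
  classical
  have hfin : (⋃ i ∈ F, {n : ℕ | i + n • v ∈ G}).Finite := by
    refine Set.Finite.biUnion F.finite_toSet fun i _ => ?_
    refine Set.Finite.preimage (f := fun n : ℕ => i + n • v) ?_ G.finite_toSet
    intro a _ b _ hab
    simp only [add_right_inj] at hab
    by_contra hne
    apply hv
    have h1 : ((a : ℤ) - b) • v = 0 := by
      rw [sub_smul, natCast_zsmul, natCast_zsmul, hab, sub_self]
    rcases smul_eq_zero.1 h1 with h2 | h2
    · exfalso; apply hne; omega
    · exact h2
  obtain ⟨N, hN⟩ := hfin.bddAbove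
  refine ⟨N + 1, fun n hn i hi hG => ?_⟩
  have := hN (Set.mem_biUnion hi hG)
  omega

/-- **Recurrence.** An event of positive probability is seen along every line, in every
direction. -/
theorem recur {v : ℤ × ℤ} (hv : v ≠ 0) {A : Set Cfg} (hA : MeasurableSet A)
    (hpos : (Law ν) A ≠ 0) :
    ∀ᵐ d ∂(Law ν), ∀ x : ℤ × ℤ, ∃ n : ℕ, 1 ≤ n ∧ sh (x + n • v) d ∈ A := by
  have key : ∀ᵐ d ∂(Law ν), ∃ n : ℕ, 1 ≤ n ∧ sh (n • v) d ∈ A := by
    set B : Set Cfg := {d | ∀ n : ℕ, 1 ≤ n → sh (n • v) d ∉ A} with hB
    have hBm : MeasurableSet B := by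
      have : B = ⋂ n : ℕ, ⋂ _ : 1 ≤ n, (sh (n • v) ⁻¹' A)ᶜ := by
        ext d; simp [hB]
      rw [this]
      exact MeasurableSet.iInter fun n => MeasurableSet.iInter fun _ =>
        ((measurable_sh _) hA).compl
    have hmix := mixing_gen ν (fun n x => x + n • v) (fun n a b h => by simpa using h)
      (far v hv) hA hBm
    have h0 : ∀ᶠ n : ℕ in atTop, (iid (ℤ × ℤ) ν).real
        ((fun (x : ℤ × ℤ → Fin 3) (k : ℤ × ℤ) => x (k + n • v)) ⁻¹' A ∩ B) = 0 := by
      filter_upwards [eventually_ge_atTop 1] with n hn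
      have : ((fun (x : ℤ × ℤ → Fin 3) (k : ℤ × ℤ) => x (k + n • v)) ⁻¹' A ∩ B) = ∅ := by
        rw [Set.eq_empty_iff_forall_notMem]
        rintro d ⟨h1, h2⟩
        exact h2 n hn h1
      rw [this]
      simp
    have h1 := tendsto_nhds_unique hmix ((tendsto_congr' h0).2 tendsto_const_nhds)
    have h2 : (iid (ℤ × ℤ) ν).real A ≠ 0 := by
      rw [measureReal_def]
      exact (ENNReal.toReal_pos hpos (measure_ne_top _ _)).ne'
    have h3 : (iid (ℤ × ℤ) ν).real B = 0 := by
      rcases mul_eq_zero.1 h1 with h | h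
      · exact absurd h h2
      · exact h
    have h4 : (Law ν) B = 0 := by
      rw [measureReal_def, ENNReal.toReal_eq_zero_iff] at h3
      rcases h3 with h | h
      · exact h
      · exact absurd h (measure_ne_top _ _)
    have h5 : ∀ᵐ d ∂(Law ν), d ∉ B := measure_eq_zero_iff_ae_notMem.1 h4
    filter_upwards [h5] with d hd
    simp only [hB, mem_ofPred_eq] at hd
    push Not at hd
    exact hd
  rw [ae_all_iff]
  intro x
  filter_upwards [ae_sh ν key x] with d hd
  obtain ⟨n, hn, h⟩ := hd
  refine ⟨n, hn, ?_⟩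
  rw [sh_sh] at h
  rwa [add_comm]

/-! ### Mass transport and conservation of density -/

theorem dir_ne_zero {k : Fin 3} (hk : k ≠ 0) : dir k ≠ 0 := by
  intro h
  have := dir_sum hk
  rw [h] at this
  simp at this

theorem smul_dir_inj {k : Fin 3} (hk : k ≠ 0) {a b : ℤ} (h : a • dir k = b • dir k) : a = b := by
  have h1 : (a - b) • dir k = 0 := by rw [sub_smul, h, sub_self]
  rcases smul_eq_zero.1 h1 with h2 | h2
  · omega
  · exact absurd h2 (dir_ne_zero hk)

/-- **Mass transport.** The law of the environment seen from a typical car after `t` cycles. -/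
theorem transport {k : Fin 3} (hk : k ≠ 0) (t : ℕ) {G : Set Cfg} (hG : MeasurableSet G) :
    (Law ν) {d | d 0 = k ∧ sh (car d 0 t) (st d t) ∈ G} =
      (Law ν) {d | st d t 0 = k ∧ st d t ∈ G} := by
  set X : ℕ → Set Cfg := fun n => {d | d 0 = k ∧ car d 0 t = (n : ℤ) • dir k ∧
    sh ((n : ℤ) • dir k) (st d t) ∈ G} with hX
  have hXm : ∀ n, MeasurableSet (X n) := by
    intro n
    refine (ms_coord 0 k).inter (MeasurableSet.inter ?_ ?_)
    · exact measurable_car 0 t (MeasurableSet.singleton _)
    · exact ((measurable_sh _).comp (measurable_st t)) hG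
  have e1 : {d : Cfg | d 0 = k ∧ sh (car d 0 t) (st d t) ∈ G} =
      ⋃ n ∈ Finset.range (t + 1), X n := by
    ext d
    simp only [mem_ofPred_eq, mem_iUnion, Finset.mem_range, hX, exists_prop]
    constructor
    · rintro ⟨h1, h2⟩
      obtain ⟨n, h3, h4, h5⟩ := car_eq (d := d) (x := 0) (by rw [h1]; exact hk) t
      rw [zero_add, h1] at h5
      refine ⟨n.toNat, by omega, h1, ?_, ?_⟩
      · rw [h5, Int.toNat_of_nonneg h3]
      · rw [Int.toNat_of_nonneg h3, ← h5]; exact h2
    · rintro ⟨n, -, h1, h2, h3⟩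
      refine ⟨h1, ?_⟩
      rw [h2]; exact h3
  have e2 : {d : Cfg | st d t 0 = k ∧ st d t ∈ G} =
      ⋃ n ∈ Finset.range (t + 1), sh (-((n : ℤ) • dir k)) ⁻¹' X n := by
    ext d
    simp only [mem_ofPred_eq, mem_iUnion, Finset.mem_range, hX, exists_prop, mem_preimage]
    constructor
    · rintro ⟨h1, h2⟩
      obtain ⟨x, h3, h4⟩ := exists_car (d := d) (t := t) (w := 0) (by rw [h1]; exact hk)
      rw [h1] at h3
      obtain ⟨n, h5, h6, h7⟩ := car_eq (d := d) (x := x) (by rw [h3]; exact hk) t
      rw [h3, h4] at h7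
      have h8 : x = -(n • dir k) := by
        rw [eq_neg_iff_add_eq_zero, ← h7]
      refine ⟨n.toNat, by omega, ?_, ?_, ?_⟩
      · rw [Int.toNat_of_nonneg h5, ← h8]
        simp only [sh, zero_add]
        exact h3
      · rw [Int.toNat_of_nonneg h5, car_sh, zero_add, ← h8, h4, h8]
        simp
      · rw [Int.toNat_of_nonneg h5, st_sh, sh_sh]
        simp only [add_neg_cancel, sh_zero]
        exact h2
    · rintro ⟨n, -, h1, h2, h3⟩
      rw [car_sh, zero_add, sub_neg_eq_add, add_eq_right] at h2
      rw [st_sh, sh_sh] at h3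
      simp only [add_neg_cancel, sh_zero] at h3
      simp only [sh, zero_add] at h1
      refine ⟨?_, h3⟩
      have := st_car (d := d) (x := -((n : ℤ) • dir k)) (by rw [h1]; exact hk) t
      rw [h2, h1] at this
      exact this
  rw [e1, e2, measure_biUnion_finset, measure_biUnion_finset]
  · refine Finset.sum_congr rfl fun n _ => ?_
    rw [measure_sh ν (hXm n)]
  · intro a _ b _ hab
    rw [Function.onFun, Set.disjoint_left]
    intro d h1 h2
    simp only [mem_preimage, hX, mem_ofPred_eq] at h1 h2
    have ha := h1.2.1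
    have hb := h2.2.1
    rw [car_sh, zero_add, sub_neg_eq_add, add_eq_right] at ha hb
    have h3 : d (-((a : ℤ) • dir k)) = k := by
      have := h1.1; simpa [sh] using this
    have h4 : d (-((b : ℤ) • dir k)) = k := by
      have := h2.1; simpa [sh] using this
    have h5 := car_inj (d := d) (x := -((a : ℤ) • dir k)) (y := -((b : ℤ) • dir k))
      (by rw [h3]; exact hk) (by rw [h4]; exact hk) t (by rw [ha, hb])
    have h6 := smul_dir_inj hk (neg_injective h5)
    exact hab (by exact_mod_cast h6)
  · intro n _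
    exact (measurable_sh _) (hXm n)
  · intro a _ b _ hab
    rw [Function.onFun, Set.disjoint_left]
    intro d h1 h2
    have h3 := h1.2.1
    rw [h2.2.1] at h3
    have h6 := smul_dir_inj hk h3
    exact hab (by exact_mod_cast h6.symm)
  · intro n _
    exact hXm n

theorem law_coord (x : ℤ × ℤ) (k : Fin 3) : (Law ν) {d | d x = k} = ν {k} := by
  have h : (Law ν).map (fun d : Cfg => d x) = ν := by
    have := Measure.infinitePi_map_eval (fun _ : ℤ × ℤ => ν) x
    exact this
  conv_rhs => rw [← h]
  rw [Measure.map_apply (measurable_pi_apply x) (MeasurableSet.singleton k)]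
  rfl

/-- **Conservation of density.** -/
theorem density {k : Fin 3} (hk : k ≠ 0) (t : ℕ) (x : ℤ × ℤ) :
    (Law ν) {d | st d t x = k} = ν {k} := by
  have h0 : (Law ν) {d | st d t 0 = k} = ν {k} := by
    have := transport ν hk t (G := univ) MeasurableSet.univ
    simp only [mem_univ, and_true] at this
    rw [← this, law_coord]
  rw [← h0, ← measure_sh ν (A := {d | st d t 0 = k}) (measurable_st t (ms_coord 0 k)) x]
  congr 1
  ext d
  simp [st_sh, sh]

/-! ### All or none -/

/-- **All or none.** A translation covariant property of cars which is passed on to the cars of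
the same type ahead in the same line holds almost surely for all cars of that type or for none. -/
theorem all_or_none {k : Fin 3} (hk : k ≠ 0) (Q : Cfg → ℤ × ℤ → Prop)
    (hmeas : MeasurableSet {d | Q d 0})
    (hcov : ∀ v d x, Q (sh v d) x ↔ Q d (x + v))
    (hah : ∀ d x (m : ℤ), 0 < m → d x = k → d (x + m • dir k) = k → Q d x →
      Q d (x + m • dir k)) :
    (∀ᵐ d ∂(Law ν), ∀ x, d x = k → Q d x) ∨ (∀ᵐ d ∂(Law ν), ∀ x, d x = k → ¬ Q d x) := by
  set A : Set Cfg := {d | d 0 = k ∧ Q d 0} with hA
  have hAm : MeasurableSet A := (ms_coord 0 k).inter hmeas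
  by_cases h0 : (Law ν) A = 0
  · right
    rw [ae_all_iff]
    intro x
    have h1 : ∀ᵐ d ∂(Law ν), d ∉ A := measure_eq_zero_iff_ae_notMem.1 h0
    filter_upwards [ae_sh ν h1 x] with d hd hk' hQ
    apply hd
    refine ⟨by simpa [sh] using hk', ?_⟩
    rw [hcov, zero_add]
    exact hQ
  · left
    have hne : -dir k ≠ 0 := by
      rw [neg_ne_zero]; exact dir_ne_zero hk
    filter_upwards [recur ν hne hAm h0] with d hd x hx
    obtain ⟨n, hn, h1, h2⟩ := hd x
    rw [hcov, zero_add] at h2
    simp only [sh, zero_add] at h1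
    have e : x + n • (-dir k) + (n : ℤ) • dir k = x := by
      rw [natCast_zsmul, smul_neg]; abel
    have := hah d (x + n • (-dir k)) n (by exact_mod_cast hn) h1 (by rw [e]; exact hx) h2
    rwa [e] at this

end Pool.Agent.Helper541_BML
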