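import Pool.Agent.Helper541_BML.Flow

/-!
# Cars which are eventually never blocked stop the free flow of the other type
-/

set_option autoImplicit false

namespace Pool.Agent.Helper541_BML

open MeasureTheory ProbabilityTheory Set Filter Topology
open scoped ENNReal

variable (ν : Measure (Fin 3)) [IsProbabilityMeasure ν]

theorem RE_sh (v z : ℤ × ℤ) (d : Cfg) (k : Fin 3) : RE (sh v d) z k ↔ RE d (z + v) k := by
  unfold RE
  refine and_congr Iff.rfl (forall_congr' fun m => ?_)
  rw [car_sh, sub_eq_iff_eq_add]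
  constructor
  · intro h; rw [h]; abel
  · intro h; rw [h]; abel

theorem FF_sh (v : ℤ × ℤ) (d : Cfg) (x : ℤ × ℤ) : FF (sh v d) x ↔ FF d (x + v) := by
  unfold FF
  simp only [nm_sh]

theorem FB_sh (v : ℤ × ℤ) (d : Cfg) (x : ℤ × ℤ) : FB (sh v d) x ↔ FB d (x + v) := by
  unfold FB
  simp only [nm_sh]

theorem ms_RE_st (T : ℕ) (z : ℤ × ℤ) (k : Fin 3) : MeasurableSet {d : Cfg | RE (st d T) z k} :=
  (measurable_st T) (ms_RE z k)

/-- If some car of type `k` is blocked only finitely often with positive probability, then at some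
time there is a positive density of cars of this type which always move from then on. -/
theorem rigid_pos {k : Fin 3} (hk : k ≠ 0)
    (h : ¬ ∀ᵐ d ∂(Law ν), ∀ x, d x = k → ¬ FB d x) :
    ∃ T, (Law ν) {d | RE (st d T) 0 k} ≠ 0 := by
  by_contra hcon
  push Not at hcon
  apply h
  have h1 : ∀ᵐ d ∂(Law ν), ∀ (T : ℕ) (z : ℤ × ℤ), ¬ RE (st d T) z k := by
    rw [ae_all_iff]
    intro T
    rw [ae_all_iff]
    intro z
    have h2 : ∀ᵐ d ∂(Law ν), d ∉ {d | RE (st d T) 0 k} := measure_eq_zero_iff_ae_notMem.1 (hcon T)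
    filter_upwards [ae_sh ν h2 z] with d hd hR
    apply hd
    simp only [mem_ofPred_eq, st_sh, RE_sh, zero_add]
    exact hR
  filter_upwards [h1] with d hd x hx hFB
  have h0 : d x ≠ 0 := by rw [hx]; exact hk
  obtain ⟨T, hT⟩ := hFB
  apply hd T (car d x T)
  refine ⟨by rw [st_car h0, hx], fun m => ?_⟩
  have h2 : ∀ m : ℕ, nm d x (T + m) = nm d x T + m := by
    intro m
    induction m with
    | zero => simp
    | succ m ih => rw [← add_assoc, hT _ (by omega), ih]; push_cast; ring
  rw [← car_add, car_nm h0, car_nm h0, h2, hx, add_smul, add_assoc]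

/-- Cars of one type which are eventually never blocked prevent free flow of the other type. -/
theorem no_ff {k k' : Fin 3} (hk : k ≠ 0) (hk' : k' ≠ 0) (hne : k ≠ k') (hν : ν {k} ≠ 0)
    (h : ∃ T, (Law ν) {d | RE (st d T) 0 k'} ≠ 0) :
    ∀ᵐ d ∂(Law ν), ∀ x, d x = k → ¬ FF d x := by
  rcases all_or_none ν hk FF ms_FF FF_sh (FF_ahead hk) with hall | hnone
  swap
  · exact hnone
  exfalso
  obtain ⟨T, hT⟩ := h
  set μ := Law ν with hμ
  set v : ℤ × ℤ := dir k - dir k' with hv
  have hv0 : v ≠ 0 := by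
    intro h0
    rw [hv, sub_eq_zero] at h0
    apply hne
    rcases fin3 k with h1 | h1 | h1 <;> rcases fin3 k' with h2 | h2 | h2 <;> subst h1 <;> subst h2 <;>
      simp [dir] at h0 hk hk' ⊢
  set S : ℕ → Set Cfg := fun R => {d | ∀ n : ℕ, 1 ≤ n → n ≤ R → ¬ RE (st d T) (n • v) k'} with hS
  have hSm : ∀ R, MeasurableSet (S R) := by
    intro R
    have : S R = ⋂ n : ℕ, ⋂ _ : 1 ≤ n, ⋂ _ : n ≤ R, {d : Cfg | RE (st d T) (n • v) k'}ᶜ := by
      ext d; simp [hS]
    rw [this]
    exact MeasurableSet.iInter fun n => MeasurableSet.iInter fun _ => MeasurableSet.iInter fun _ =>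
      (ms_RE_st T _ k').compl
  have hanti : Antitone S := by
    intro R R' hRR d hd n h1 h2
    exact hd n h1 (h2.trans hRR)
  have hlim := tendsto_measure_iInter_atTop (μ := μ) (fun R => (hSm R).nullMeasurableSet) hanti
    ⟨0, measure_ne_top _ _⟩
  have hzero : μ (⋂ R, S R) = 0 := by
    have h1 := recur ν hv0 (ms_RE_st T 0 k') hT
    rw [measure_eq_zero_iff_ae_notMem]
    filter_upwards [h1] with d hd hdS
    obtain ⟨n, hn, h2⟩ := hd 0
    rw [mem_iInter] at hdS
    apply hdS n n hn le_rfl
    simp only [zero_add, mem_ofPred_eq, st_sh, RE_sh] at h2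
    exact h2
  rw [hzero] at hlim
  have hff : ∀ᵐ d ∂(Law ν), d 0 = k → FF d 0 := by
    filter_upwards [hall] with d hd h0
    exact hd 0 h0
  have hle : ∀ R : ℕ, 1 ≤ R → ν.real {k} ≤ μ.real (S R) := by
    intro R hR
    refine ff_window ν hk hff hR (T := T) ?_
    intro s hs
    obtain ⟨m, rfl⟩ := Nat.exists_eq_add_of_le hs
    have h1 : {d : Cfg | st d (T + m) 0 = k ∧ car (st d (T + m)) 0 R = (R : ℤ) • dir k} ⊆
        sh (-((m : ℤ) • dir k')) ⁻¹' (S R) := by
      rintro d ⟨h2, h3⟩
      simp only [mem_preimage, hS, mem_ofPred_eq]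
      intro n hn1 hn2 hRE
      rw [st_sh, RE_sh] at hRE
      have h4 := RE_step hk' hRE m
      rw [← st_add] at h4
      rw [neg_add_cancel_right] at h4
      exact collision hk hk' hne h2 h3 hn2 h4
    calc μ.real {d : Cfg | st d (T + m) 0 = k ∧ car (st d (T + m)) 0 R = (R : ℤ) • dir k}
        ≤ μ.real (sh (-((m : ℤ) • dir k')) ⁻¹' (S R)) := measureReal_mono h1
      _ = μ.real (S R) := by
        rw [measureReal_def, measureReal_def, hμ, measure_sh ν (hSm R)]
  have h5 : Tendsto (fun R => μ.real (S R)) atTop (𝓝 0) := by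
    have := (ENNReal.tendsto_toReal ENNReal.zero_ne_top).comp hlim
    simpa [measureReal_def, Function.comp_def] using this
  have h6 : ν.real {k} ≤ 0 :=
    ge_of_tendsto h5 (by filter_upwards [eventually_ge_atTop 1] with R hR using hle R hR)
  have h7 : 0 < ν.real {k} := by
    rw [measureReal_def]
    exact ENNReal.toReal_pos hν (measure_ne_top _ _)
  linarith

/-- **Trichotomy.** -/
theorem trichotomy (h1 : ν {1} ≠ 0) (h2 : ν {2} ≠ 0) :
    (∀ᵐ d ∂(Law ν), ∀ x, d x ≠ 0 → ¬ FB d x) ∨
    (∀ᵐ d ∂(Law ν), (∀ x, d x = 1 → FB d x) ∧ ∀ x, d x = 2 → ¬ FF d x) ∨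
    (∀ᵐ d ∂(Law ν), (∀ x, d x = 2 → FB d x) ∧ ∀ x, d x = 1 → ¬ FF d x) := by
  rcases all_or_none ν (k := 1) (by decide) FB ms_FB FB_sh (FB_ahead (by decide)) with ha | ha
  · by_cases hn : ∀ᵐ d ∂(Law ν), ∀ x, d x = 1 → ¬ FB d x
    · -- impossible, but we can use it anyway
      rcases all_or_none ν (k := 2) (by decide) FB ms_FB FB_sh (FB_ahead (by decide)) with hb | hb
      · by_cases hn2 : ∀ᵐ d ∂(Law ν), ∀ x, d x = 2 → ¬ FB d x
        · left
          filter_upwards [hn, hn2] with d e1 e2 x hx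
          rcases fin3 (d x) with h | h | h
          · exact absurd h hx
          · exact e1 x h
          · exact e2 x h
        · right; right
          filter_upwards [hb, no_ff ν (k := 1) (k' := 2) (by decide) (by decide) (by decide) h1
            (rigid_pos ν (by decide) hn2)] with d e1 e2
          exact ⟨e1, e2⟩
      · left
        filter_upwards [hn, hb] with d e1 e2 x hx
        rcases fin3 (d x) with h | h | h
        · exact absurd h hx
        · exact e1 x h
        · exact e2 x h
    · right; left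
      filter_upwards [ha, no_ff ν (k := 2) (k' := 1) (by decide) (by decide) (by decide) h2
        (rigid_pos ν (by decide) hn)] with d e1 e2
      exact ⟨e1, e2⟩
  · rcases all_or_none ν (k := 2) (by decide) FB ms_FB FB_sh (FB_ahead (by decide)) with hb | hb
    · by_cases hn2 : ∀ᵐ d ∂(Law ν), ∀ x, d x = 2 → ¬ FB d x
      · left
        filter_upwards [ha, hn2] with d e1 e2 x hx
        rcases fin3 (d x) with h | h | h
        · exact absurd h hx
        · exact e1 x h
        · exact e2 x h
      · right; right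
        filter_upwards [hb, no_ff ν (k := 1) (k' := 2) (by decide) (by decide) (by decide) h1
          (rigid_pos ν (by decide) hn2)] with d e1 e2
        exact ⟨e1, e2⟩
    · left
      filter_upwards [ha, hb] with d e1 e2 x hx
      rcases fin3 (d x) with h | h | h
      · exact absurd h hx
      · exact e1 x h
      · exact e2 x h

end Pool.Agent.Helper541_BML
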