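import Pool.Agent.Helper541_BML.Bridge

/-!
# An upper bound for the velocity in the Biham-Middleton-Levine traffic model
-/

set_option autoImplicit false

namespace Pool.Agent.Helper541_BML

open MeasureTheory ProbabilityTheory Set Filter Topology
open scoped ENNReal

variable (ν : Measure (Fin 3)) [IsProbabilityMeasure ν]

theorem sum_fin3 : ν.real {0} + ν.real {1} + ν.real {2} = 1 := by
  have h : ν.real (univ : Set (Fin 3)) = 1 := probReal_univ
  have e : (univ : Set (Fin 3)) = ({0} ∪ {1}) ∪ {2} := by
    ext a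
    rcases fin3 a with h | h | h <;> subst h <;> simp
  rw [e, measureReal_union (by simp) (MeasurableSet.singleton _),
    measureReal_union (by simp) (MeasurableSet.singleton _)] at h
  exact h

/-- the law of one site of a random configuration -/
theorem three_parts (f : Cfg → Fin 3) (hf : Measurable f) {a b : ℝ}
    (h1 : (Law ν).real {d | f d = 1} = a) (h2 : (Law ν).real {d | f d = 2} = b) :
    (Law ν).real {d | f d = 0} = 1 - a - b := by
  have h : (Law ν).real (univ : Set Cfg) = 1 := probReal_univ
  have e : (univ : Set Cfg) = ({d | f d = 0} ∪ {d | f d = 1}) ∪ {d | f d = 2} := by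
    ext d
    rcases fin3 (f d) with h | h | h <;> simp [h]
  have m1 : MeasurableSet {d | f d = 1} := hf (MeasurableSet.singleton _)
  have m2 : MeasurableSet {d | f d = 2} := hf (MeasurableSet.singleton _)
  have d1 : Disjoint {d | f d = 0} {d | f d = 1} := by
    rw [Set.disjoint_left]
    intro d h3 h4
    simp only [mem_ofPred_eq] at h3 h4
    rw [h3] at h4
    exact absurd h4 (by decide)
  have d2 : Disjoint ({d | f d = 0} ∪ {d | f d = 1}) {d | f d = 2} := by
    rw [Set.disjoint_left]
    rintro d (h3 | h3) h4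
    · simp only [mem_ofPred_eq] at h3 h4
      rw [h3] at h4
      exact absurd h4 (by decide)
    · simp only [mem_ofPred_eq] at h3 h4
      rw [h3] at h4
      exact absurd h4 (by decide)
  rw [e, measureReal_union d2 m2, measureReal_union d1 m1, h1, h2] at h
  linarith

theorem density_real {k : Fin 3} (hk : k ≠ 0) (t : ℕ) (x : ℤ × ℤ) :
    (Law ν).real {d | st d t x = k} = ν.real {k} := by
  rw [measureReal_def, measureReal_def, density ν hk]

theorem empty_st (t : ℕ) (x : ℤ × ℤ) : (Law ν).real {d | st d t x = 0} = ν.real {0} := by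
  have h := three_parts ν (fun d => st d t x) ((measurable_pi_apply x).comp (measurable_st t))
    (density_real ν (k := 1) (by decide) t x) (density_real ν (k := 2) (by decide) t x)
  have := sum_fin3 ν
  linarith

theorem empty_eph (t : ℕ) (x : ℤ × ℤ) : (Law ν).real {d | eph (st d t) x = 0} = ν.real {0} := by
  have h1 : (Law ν).real {d | eph (st d t) x = 1} = ν.real {1} := by
    rw [← density_real ν (k := 1) (by decide) (t + 1) x]
    congr 1
    ext d
    simp only [mem_ofPred_eq]
    rw [st, nph_one]
  have h2 : (Law ν).real {d | eph (st d t) x = 2} = ν.real {2} := by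
    rw [← density_real ν (k := 2) (by decide) t x]
    congr 1
    ext d
    simp only [mem_ofPred_eq]
    rw [eph_two]
  have h := three_parts ν (fun d => eph (st d t) x)
    ((measurable_pi_apply x).comp (measurable_eph.comp (measurable_st t))) h1 h2
  have := sum_fin3 ν
  linarith

/-- A typical car moves in a given cycle with probability at most the density of empty sites. -/
theorem move_le {k : Fin 3} (hk : k ≠ 0) (s : ℕ) :
    (Law ν).real {d | d 0 = k ∧ nm d 0 (s + 1) = nm d 0 s + 1} ≤ ν.real {0} := by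
  have h1 := transport ν hk s (G := {d' : Cfg | car d' 0 1 = 0}ᶜ) (ms_car 0 0 1).compl
  have h2 : {d : Cfg | d 0 = k ∧ nm d 0 (s + 1) = nm d 0 s + 1} =
      {d | d 0 = k ∧ sh (car d 0 s) (st d s) ∈ {d' : Cfg | car d' 0 1 = 0}ᶜ} := by
    ext d
    simp only [mem_ofPred_eq, mem_compl_iff]
    refine and_congr_right fun h3 => ?_
    have h0 : d 0 ≠ 0 := by rw [h3]; exact hk
    rw [car_sh, zero_add, ← car_add, sub_eq_zero]
    have e : nm d 0 (s + 1) = nm d 0 s + 1 ↔ ¬ nm d 0 (s + 1) = nm d 0 s := by
      rcases nm_succ h0 s with h4 | h4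
      · constructor
        · intro h5; omega
        · intro h5; exact absurd h4 h5
      · constructor
        · intro h5; omega
        · intro _; exact h4
    rw [e, nm_stay h0, car]
  rw [h2, measureReal_def, h1, ← measureReal_def]
  rcases fin3 k with h | h | h
  · exact absurd h hk
  · subst h
    refine le_trans (measureReal_mono ?_) (empty_st ν s (1, 0)).le
    rintro d ⟨h3, h4⟩
    simp only [mem_compl_iff, mem_ofPred_eq, car, st] at h4
    rw [mv_one h3] at h4
    simp only [mem_ofPred_eq]
    by_contra h5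
    apply h4
    rw [if_neg]
    simpa using h5
  · subst h
    refine le_trans (measureReal_mono ?_) (empty_eph ν s (0, 1)).le
    rintro d ⟨h3, h4⟩
    simp only [mem_compl_iff, mem_ofPred_eq, car, st] at h4
    rw [mv_two h3] at h4
    simp only [mem_ofPred_eq]
    by_contra h5
    apply h4
    rw [if_neg]
    simpa using h5

/-- The mean number of moves of a typical car. -/
theorem mean_le {k : Fin 3} (hk : k ≠ 0) (n : ℕ) :
    ∫ d in {d : Cfg | d 0 = k}, (nm d 0 n : ℝ) ∂(Law ν) ≤ n * ν.real {0} := by
  set μ := Law ν with hμ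
  set A : Set Cfg := {d | d 0 = k} with hA
  have hAm : MeasurableSet A := ms_coord 0 k
  set W : ℕ → Set Cfg := fun i => {d | d 0 = k ∧ nm d 0 (i + 1) = nm d 0 i + 1} with hW
  have hWm : ∀ i, MeasurableSet (W i) := fun i =>
    (ms_coord 0 k).inter (measurableSet_eq_fun (measurable_nm 0 _) ((measurable_nm 0 _).add_const _))
  have hpt : ∀ d ∈ A, (nm d 0 n : ℝ) ≤
      ∑ i ∈ Finset.range n, (W i).indicator (fun _ => (1 : ℝ)) d := by
    intro d hd
    have h3 : d 0 = k := hd
    have h0 : d 0 ≠ 0 := by rw [h3]; exact hk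
    induction n with
    | zero => simp [nm_zero]
    | succ n ih =>
      rw [Finset.sum_range_succ]
      rcases nm_succ h0 n with h4 | h4
      · rw [h4]
        have : 0 ≤ (W n).indicator (fun _ => (1 : ℝ)) d := indicator_nonneg (by simp) _
        linarith
      · have hw : d ∈ W n := ⟨h3, h4⟩
        rw [indicator_of_mem hw, h4]
        push_cast
        linarith
  have hintW : ∀ i, IntegrableOn ((W i).indicator (fun _ => (1 : ℝ))) A μ := fun i =>
    (((integrable_const (1 : ℝ)).indicator (hWm i)).integrableOn)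
  have h8 : ∫ d in A, (nm d 0 n : ℝ) ∂μ ≤
      ∫ d in A, (∑ i ∈ Finset.range n, (W i).indicator (fun _ => (1 : ℝ)) d) ∂μ := by
    refine setIntegral_mono_on ?_ ?_ hAm hpt
    · refine Integrable.of_bound (C := (n : ℝ))
        (measurable_nmR 0 _).aestronglyMeasurable ?_
      rw [ae_restrict_iff' hAm]
      refine Eventually.of_forall fun d hd => ?_
      have h3 : d 0 = k := hd
      have h0 : d 0 ≠ 0 := by rw [h3]; exact hk
      rw [Real.norm_eq_abs, abs_of_nonneg (by exact_mod_cast nm_nonneg h0 _)]
      exact_mod_cast nm_le h0 _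
    · exact integrable_finsetSum _ fun i _ => hintW i
  refine h8.trans ?_
  rw [integral_finsetSum _ (fun i _ => hintW i)]
  calc ∑ i ∈ Finset.range n, ∫ d in A, (W i).indicator (fun _ => (1 : ℝ)) d ∂μ
      ≤ ∑ i ∈ Finset.range n, ν.real {0} := by
        refine Finset.sum_le_sum fun i _ => ?_
        rw [integral_indicator (hWm i)]
        simp only [integral_const, smul_eq_mul, mul_one]
        refine le_trans ?_ (move_le ν hk i)
        rw [measureReal_restrict_apply MeasurableSet.univ, univ_inter]
        rw [measureReal_restrict_apply (hWm i)]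
        exact measureReal_mono inter_subset_left
    _ = n * ν.real {0} := by simp

/-- The lower limit of the velocity of the car started at `x` is at least `v`. -/
def LB (v : ℝ) (d : Cfg) (x : ℤ × ℤ) : Prop :=
  ∀ n : ℕ, ∃ T : ℕ, ∀ t : ℕ, T ≤ t → (v - 1 / ((n : ℝ) + 1)) * t ≤ nm d x t

theorem LB_sh (v : ℝ) (w : ℤ × ℤ) (d : Cfg) (x : ℤ × ℤ) : LB v (sh w d) x ↔ LB v d (x + w) := by
  unfold LB
  simp only [nm_sh]

theorem ms_LB (v : ℝ) : MeasurableSet {d : Cfg | LB v d 0} := by
  have : {d : Cfg | LB v d 0} = ⋂ n : ℕ, ⋃ T : ℕ, ⋂ t : ℕ, ⋂ _ : T ≤ t,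
      {d : Cfg | (v - 1 / ((n : ℝ) + 1)) * t ≤ nm d 0 t} := by
    ext d; simp [LB]
  rw [this]
  refine MeasurableSet.iInter fun n => MeasurableSet.iUnion fun T =>
    MeasurableSet.iInter fun t => MeasurableSet.iInter fun _ => ?_
  exact measurableSet_le measurable_const (measurable_nmR 0 t)

theorem LB_ahead (v : ℝ) {k : Fin 3} (hk : k ≠ 0) (d : Cfg) (x : ℤ × ℤ) (m : ℤ) (hm : 0 < m)
    (h1 : d x = k) (h2 : d (x + m • dir k) = k) (h : LB v d x) : LB v d (x + m • dir k) := by
  have h0 : d x ≠ 0 := by rw [h1]; exact hk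
  intro n
  obtain ⟨T, hT⟩ := h (n + 1)
  -- the gain between the two slopes
  set a : ℝ := 1 / ((n : ℝ) + 1) with ha
  set b : ℝ := 1 / (((n + 1 : ℕ) : ℝ) + 1) with hb
  have hab : 0 < a - b := by
    rw [ha, hb, sub_pos]
    apply one_div_lt_one_div_of_lt
    · positivity
    · push_cast; linarith
  obtain ⟨K, hK⟩ := exists_nat_ge ((m : ℝ) / (a - b))
  refine ⟨max T K, fun t ht => ?_⟩
  have h3 := hT t ((le_max_left _ _).trans ht)
  have h4 : (K : ℝ) ≤ t := by exact_mod_cast (le_max_right _ _).trans ht
  have h5 : (m : ℝ) ≤ (a - b) * t := by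
    have := hK.trans h4
    rw [div_le_iff₀ hab] at this
    linarith
  have h6 := order h0 hm (by rw [h1, h2]) t
  rw [h1] at h6
  have h7 : ((nm d x t : ℤ) : ℝ) < ((m + nm d (x + m • dir k) t : ℤ) : ℝ) := by exact_mod_cast h6
  push_cast at h7
  nlinarith

/-- **Velocity bound, one type.** -/
theorem vel_bound {k : Fin 3} (hk : k ≠ 0) {v : ℝ} (hv : ν.real {0} < v * ν.real {k}) :
    ∀ᵐ d ∂(Law ν), ∀ x, d x = k → ¬ LB v d x := by
  rcases all_or_none ν hk (LB v) (ms_LB v) (LB_sh v) (LB_ahead v hk) with hall | hnone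
  swap
  · exact hnone
  exfalso
  set μ := Law ν with hμ
  set A : Set Cfg := {d | d 0 = k} with hA
  have hAm : MeasurableSet A := ms_coord 0 k
  have hAν : μ.real A = ν.real {k} := by
    rw [measureReal_def, measureReal_def, hμ, law_coord]
  -- choose a slope
  have hlim : Tendsto (fun n : ℕ => (v - 1 / ((n : ℝ) + 1)) * ν.real {k}) atTop
      (𝓝 ((v - 0) * ν.real {k})) :=
    (tendsto_const_nhds.sub tendsto_one_div_add_atTop_nhds_zero_nat).mul_const _
  rw [sub_zero] at hlim
  obtain ⟨n, hn⟩ := (hlim.eventually (lt_mem_nhds hv)).exists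
  set v' : ℝ := v - 1 / ((n : ℝ) + 1) with hv'
  have hν0 : 0 ≤ ν.real {k} := measureReal_nonneg
  have hv'0 : 0 < v' := by
    by_contra hcon
    push Not at hcon
    have h1 : v' * ν.real {k} ≤ 0 := mul_nonpos_of_nonpos_of_nonneg hcon hν0
    have h2 : 0 ≤ ν.real {0} := measureReal_nonneg
    linarith
  set B : ℕ → Set Cfg := fun T => {d | d 0 = k ∧ ∀ t : ℕ, T ≤ t → v' * t ≤ nm d 0 t} with hB
  have hBm : ∀ T, MeasurableSet (B T) := by
    intro T
    have : B T = {d | d 0 = k} ∩ ⋂ t : ℕ, ⋂ _ : T ≤ t, {d : Cfg | v' * t ≤ nm d 0 t} := by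
      ext d; simp [hB]
    rw [this]
    exact (ms_coord 0 k).inter (MeasurableSet.iInter fun t => MeasurableSet.iInter fun _ =>
      measurableSet_le measurable_const (measurable_nmR 0 t))
  have hmono : Monotone B := fun T T' hT d hd => ⟨hd.1, fun t ht => hd.2 t (hT.trans ht)⟩
  have hU : μ (⋃ T, B T) = μ A := by
    apply measure_congr
    filter_upwards [hall] with d hd
    apply propext
    constructor
    · intro h1
      obtain ⟨T, h2⟩ := mem_iUnion.1 h1
      exact h2.1
    · intro h1
      obtain ⟨T, hT⟩ := hd 0 h1 n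
      exact mem_iUnion.2 ⟨T, h1, hT⟩
  have hBle : ∀ T, v' * μ.real (B T) ≤ ν.real {0} := by
    intro T
    set t := max T 1 with ht
    have ht1 : (0 : ℝ) < t := by
      have : 1 ≤ t := le_max_right _ _
      exact_mod_cast this
    have h1 := mean_le ν hk t
    have h2 : (v' * t) * μ.real (B T) ≤ ∫ d in A, (nm d 0 t : ℝ) ∂μ := by
      have hi : IntegrableOn (fun d : Cfg => (nm d 0 t : ℝ)) A μ := by
        refine Integrable.of_bound (C := (t : ℝ))
          (measurable_nmR 0 _).aestronglyMeasurable ?_
        rw [ae_restrict_iff' hAm]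
        refine Eventually.of_forall fun d hd => ?_
        have h3 : d 0 = k := hd
        have h0 : d 0 ≠ 0 := by rw [h3]; exact hk
        rw [Real.norm_eq_abs, abs_of_nonneg (by exact_mod_cast nm_nonneg h0 _)]
        exact_mod_cast nm_le h0 _
      have hsub : B T ⊆ A := fun d hd => hd.1
      calc (v' * t) * μ.real (B T) = ∫ _ in B T, (v' * t) ∂μ := by
            rw [setIntegral_const, smul_eq_mul, mul_comm]
        _ ≤ ∫ d in B T, (nm d 0 t : ℝ) ∂μ := by
            refine setIntegral_mono_on (integrable_const _) (hi.mono_set hsub) (hBm T) ?_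
            intro d hd
            exact hd.2 t (le_max_left _ _)
        _ ≤ ∫ d in A, (nm d 0 t : ℝ) ∂μ := by
            refine setIntegral_mono_set hi ?_ (Eventually.of_forall hsub)
            rw [Filter.EventuallyLE, ae_restrict_iff' hAm]
            refine Eventually.of_forall fun d hd => ?_
            have h3 : d 0 = k := hd
            have h0 : d 0 ≠ 0 := by rw [h3]; exact hk
            simp only [Pi.zero_apply]
            exact_mod_cast nm_nonneg h0 _
    have h3 : (t : ℝ) * (v' * μ.real (B T)) ≤ t * ν.real {0} := by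
      calc (t : ℝ) * (v' * μ.real (B T)) = (v' * t) * μ.real (B T) := by ring
        _ ≤ _ := h2.trans h1
    exact le_of_mul_le_mul_left h3 ht1
  have h4 : Tendsto (fun T => v' * μ.real (B T)) atTop (𝓝 (v' * ν.real {k})) := by
    have h5 := tendsto_measure_iUnion_atTop (μ := μ) hmono
    rw [hU] at h5
    have h6 := (ENNReal.tendsto_toReal (measure_ne_top μ A)).comp h5
    rw [← hAν]
    exact h6.const_mul v'
  have h7 : v' * ν.real {k} ≤ ν.real {0} := le_of_tendsto' h4 hBle
  linarith

end Pool.Agent.Helper541_BML
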